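import Pool.Agent.helper3.HB.THF2
import Pool.Agent.helper47.RA.Num

/-!
# The number of primitive solutions of a Thue equation of any degree in a box

For all `n` and `ε > 0` there is `C` such that the following holds for all `H ≥ 1`. Let
`Φ(u, v) = ∑_{i ≤ n} c_i u^i v^(n - i)` be an integral form with `|c_i| ≤ H`, which is not (over `ℚ`) a constant
times the `n`-th power of a linear form, and let `m ≠ 0`, `|m| ≤ H`. Then `Φ(u, v) = m` has at most `C H^ε` primitive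
solutions with `|u|, |v| ≤ H`. The proof is elementary: the solutions fall into `τ(m)^n` classes (`THF_LBL`), and
two solutions of a class at which all factors of `Φ` over `ℂ` are close are equal, by the fact that a monic
integral polynomial with all roots in the open unit disc around `-1` is `(X + 1)^n`.
-/

set_option autoImplicit false

namespace Pool.Agent.helper3.HB

open Finset

/-- a form of degree `n` which is not a constant times a power of a linear form over `ℚ` -/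
def NotPow (n : ℕ) (Φ : ℤ → ℤ → ℤ) : Prop :=
  ¬ ∃ D k a b : ℤ, D ≠ 0 ∧ ∀ u v : ℤ, D * Φ u v = k * (a * u + b * v) ^ n

/-- two primitive solutions on a line through the origin are equal up to sign -/
theorem THF_w {u v u' v' : ℤ} (c1 : IsCoprime u v) (c2 : IsCoprime u' v')
    (hw : u * v' - v * u' = 0) : (u' = u ∧ v' = v) ∨ (u' = -u ∧ v' = -v) := by
  obtain ⟨p, q, hpq⟩ := c1
  have e1 : u' = (p * u' + q * v') * u := by linear_combination -u' * hpq - q * hw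
  have e2 : v' = (p * u' + q * v') * v := by linear_combination -v' * hpq + p * hw
  obtain ⟨s, hs⟩ : ∃ s, s = p * u' + q * v' := ⟨_, rfl⟩
  rw [← hs] at e1 e2
  have hsu : IsUnit s := by
    obtain ⟨p', q', hpq'⟩ := c2
    rw [e1, e2] at hpq'
    exact IsUnit.of_mul_eq_one (p' * u + q' * v) (by linear_combination hpq')
  rcases Int.isUnit_iff.1 hsu with h3 | h3
  · rw [h3, one_mul] at e1 e2
    exact Or.inl ⟨e1, e2⟩
  · rw [h3] at e1 e2
    exact Or.inr ⟨by rw [e1]; ring, by rw [e2]; ring⟩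

/-- two solutions of a class at which the linear factors are close -/
theorem THF_pair (n : ℕ) (Φ : ℤ → ℤ → ℤ) (m : ℤ) (hm : m ≠ 0) (κ : ℂ) (α β : Fin n → ℂ)
    (hval : ∀ u v : ℤ, (Φ u v : ℂ) = κ * ∏ i, (α i * u + β i * v)) (hnp : NotPow n Φ)
    (y z : ℤ × ℤ) (hy : Φ y.1 y.2 = m) (hrel : THF_rel n Φ m y z)
    (hw : y.1 * z.2 - y.2 * z.1 ≠ 0)
    (hnear : ∀ i, ‖(α i * z.1 + β i * z.2) / (α i * y.1 + β i * y.2) - 1‖ < 1) : False := by
  classical
  obtain ⟨G, ⟨g, hg⟩, hG⟩ := hrel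
  have hmC : (m : ℂ) ≠ 0 := by exact_mod_cast hm
  have hymul : κ * ∏ i, (α i * y.1 + β i * y.2) = m := by rw [← hval, hy]
  have hLy : ∀ i, α i * y.1 + β i * y.2 ≠ 0 := by
    intro i h0
    rw [Finset.prod_eq_zero (Finset.mem_univ i) h0, mul_zero] at hymul
    exact hmC hymul.symm
  set r : Fin n → ℂ := fun i => (α i * z.1 + β i * z.2) / (α i * y.1 + β i * y.2) with hr
  -- the form at `s y + t z`
  have hst : ∀ s t : ℤ, ((Φ (s * y.1 + t * z.1) (s * y.2 + t * z.2) : ℤ) : ℂ) =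
      m * ∏ i, ((s : ℂ) + t * r i) := by
    intro s t
    rw [hval, ← hymul, mul_assoc, ← Finset.prod_mul_distrib]
    congr 1
    refine Finset.prod_congr rfl fun i _ => ?_
    have := hLy i
    rw [hr]
    push_cast
    field_simp
    ring
  set P : Polynomial ℤ := ∑ i ∈ range (n + 1), Polynomial.C (g i) * Polynomial.X ^ i with hP
  have hPmap : P.map (Int.castRingHom ℂ) =
      ∏ i ∈ (Finset.univ : Finset (Fin n)), (Polynomial.X + Polynomial.C (r i)) := by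
    apply Polynomial.eq_of_infinite_eval_eq
    apply Set.infinite_of_injective_forall_mem (f := fun s : ℤ => (s : ℂ)) Int.cast_injective
    intro s
    show Polynomial.eval (s : ℂ) _ = Polynomial.eval (s : ℂ) _
    have h1 : Polynomial.eval (s : ℂ) (P.map (Int.castRingHom ℂ)) = ((G s 1 : ℤ) : ℂ) := by
      rw [show (s : ℂ) = (Int.castRingHom ℂ) s by simp, Polynomial.eval_map_apply, hP,
        Polynomial.eval_finsetSum, hg]
      simp
    have h2 := hst s 1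
    rw [hG] at h2
    push_cast at h2
    have h3 := mul_left_cancel₀ hmC h2
    rw [h1, h3, Polynomial.eval_prod]
    refine Finset.prod_congr rfl fun i _ => ?_
    rw [Polynomial.eval_add, Polynomial.eval_X, Polynomial.eval_C, one_mul]
  have hr1 := THF_MON n Finset.univ (by simp) r (fun i _ => hnear i) P hPmap
  apply hnp
  refine ⟨(y.1 * z.2 - y.2 * z.1) ^ n, m, z.2 - y.2, y.1 - z.1, pow_ne_zero n hw, fun u v => ?_⟩
  have h4 := hst (u * z.2 - v * z.1) (y.1 * v - y.2 * u)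
  have e1 : (u * z.2 - v * z.1) * y.1 + (y.1 * v - y.2 * u) * z.1 =
      (y.1 * z.2 - y.2 * z.1) * u := by ring
  have e2 : (u * z.2 - v * z.1) * y.2 + (y.1 * v - y.2 * u) * z.2 =
      (y.1 * z.2 - y.2 * z.1) * v := by ring
  rw [e1, e2] at h4
  have h5 : ((Φ ((y.1 * z.2 - y.2 * z.1) * u) ((y.1 * z.2 - y.2 * z.1) * v) : ℤ) : ℂ) =
      ((y.1 * z.2 - y.2 * z.1 : ℤ) : ℂ) ^ n * (Φ u v : ℂ) := by
    rw [hval, hval]
    have h6 : ((y.1 * z.2 - y.2 * z.1 : ℤ) : ℂ) ^ n =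
        ∏ _i : Fin n, ((y.1 * z.2 - y.2 * z.1 : ℤ) : ℂ) := by
      rw [Finset.prod_const, Finset.card_univ, Fintype.card_fin]
    rw [h6, mul_left_comm, ← Finset.prod_mul_distrib]
    congr 1
    refine Finset.prod_congr rfl fun i _ => ?_
    push_cast
    ring
  rw [h5] at h4
  have h7 : ∏ i, (((u * z.2 - v * z.1 : ℤ) : ℂ) + ((y.1 * v - y.2 * u : ℤ) : ℂ) * r i) =
      (((z.2 - y.2) * u + (y.1 - z.1) * v : ℤ) : ℂ) ^ n := by
    have h8 : (((z.2 - y.2) * u + (y.1 - z.1) * v : ℤ) : ℂ) ^ n =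
        ∏ _i : Fin n, (((z.2 - y.2) * u + (y.1 - z.1) * v : ℤ) : ℂ) := by
      rw [Finset.prod_const, Finset.card_univ, Fintype.card_fin]
    rw [h8]
    refine Finset.prod_congr rfl fun i _ => ?_
    rw [hr1 i (Finset.mem_univ i)]
    push_cast
    ring
  rw [h7] at h4
  exact_mod_cast h4

/-- the cell of a point for one linear factor -/
noncomputable def THF_cell (x : ℂ) : ℤ × ℤ × ℤ :=
  (⌊8 * Real.log ‖x‖⌋, ⌊4 * (x / ‖x‖).re⌋, ⌊4 * (x / ‖x‖).im⌋)

theorem THF_cell_near (a b : ℂ) (ha : a ≠ 0) (hb : b ≠ 0) (h : THF_cell a = THF_cell b) :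
    ‖b / a - 1‖ < 1 := by
  unfold THF_cell at h
  rw [Prod.mk.injEq, Prod.mk.injEq] at h
  exact THF_near a b ha hb (Int.abs_sub_lt_one_of_floor_eq_floor h.1)
    (Int.abs_sub_lt_one_of_floor_eq_floor h.2.1) (Int.abs_sub_lt_one_of_floor_eq_floor h.2.2)

theorem THF_cell_mem (x : ℂ) (hx : x ≠ 0) (lo hi : ℝ) (h1 : lo ≤ Real.log ‖x‖)
    (h2 : Real.log ‖x‖ ≤ hi) :
    THF_cell x ∈ Icc ⌊8 * lo⌋ ⌊8 * hi⌋ ×ˢ (Icc (-4 : ℤ) 4 ×ˢ Icc (-4 : ℤ) 4) := by
  have hX : 0 < ‖x‖ := norm_pos_iff.2 hx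
  have hn : ‖x / (‖x‖ : ℂ)‖ = 1 := by
    rw [norm_div, Complex.norm_real, norm_norm, div_self hX.ne']
  have hre := abs_le.1 ((Complex.abs_re_le_norm (x / (‖x‖ : ℂ))).trans_eq hn)
  have him := abs_le.1 ((Complex.abs_im_le_norm (x / (‖x‖ : ℂ))).trans_eq hn)
  unfold THF_cell
  rw [Finset.mem_product, Finset.mem_product, Finset.mem_Icc, Finset.mem_Icc, Finset.mem_Icc]
  refine ⟨⟨Int.floor_le_floor (by linarith), Int.floor_le_floor (by linarith)⟩,
    ⟨Int.le_floor.2 ?_, ?_⟩, ⟨Int.le_floor.2 ?_, ?_⟩⟩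
  · push_cast; linarith
  · have : ⌊4 * (x / (‖x‖ : ℂ)).re⌋ < 5 := Int.floor_lt.2 (by push_cast; linarith)
    linarith
  · push_cast; linarith
  · have : ⌊4 * (x / (‖x‖ : ℂ)).im⌋ < 5 := Int.floor_lt.2 (by push_cast; linarith)
    linarith

/-- the count with explicit constants -/
theorem THF_count (n : ℕ) (H : ℝ) (hH : 1 ≤ H) (c : ℕ → ℤ) (hc : ∀ i ≤ n, |(c i : ℝ)| ≤ H)
    (Φ : ℤ → ℤ → ℤ) (hΦ : ∀ u v, Φ u v = ∑ i ∈ range (n + 1), c i * u ^ i * v ^ (n - i))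
    (hnp : NotPow n Φ) (m : ℤ) (hm : m ≠ 0) (T : Finset (ℤ × ℤ))
    (hT : ∀ z ∈ T, IsCoprime z.1 z.2 ∧ |(z.1 : ℝ)| ≤ H ∧ |(z.2 : ℝ)| ≤ H ∧ Φ z.1 z.2 = m) :
    T.card ≤ 2 * ((⌊8 * Real.log ((2 * H) ^ n * ((2 * n + 2) ^ n * ((n + 1) ^ (n + 1) * H)))⌋₊ + 2) *
      81) ^ n * m.natAbs.divisors.card ^ n := by
  classical
  have hH0 : 0 < H := by linarith
  set ΦC : ℂ → ℂ → ℂ := fun u v => ∑ i ∈ range (n + 1), (c i : ℂ) * u ^ i * v ^ (n - i) with hΦC
  have hcast : ∀ u v : ℤ, (Φ u v : ℂ) = ΦC u v := by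
    intro u v
    rw [hΦ, hΦC]
    push_cast
    rfl
  obtain ⟨κ, α, β, hfac⟩ := THF_fac n ΦC ⟨fun i => (c i : ℂ), fun u v => rfl⟩
  have hval : ∀ u v : ℤ, (Φ u v : ℂ) = κ * ∏ i, (α i * u + β i * v) := by
    intro u v
    rw [hcast, hfac]
  have hnorm := THF_norm n ΦC (fun i => (c i : ℂ)) H hH0.le (fun u v => rfl) (by
    intro i hi
    rw [Complex.norm_intCast]
    exact_mod_cast hc i hi) κ α β hfac
  have hmC : (m : ℂ) ≠ 0 := by exact_mod_cast hm
  set K : ℕ := ⌊8 * Real.log ((2 * H) ^ n * ((2 * n + 2) ^ n * ((n + 1) ^ (n + 1) * H)))⌋₊ + 2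
    with hK
  set L : Fin n → ℤ × ℤ → ℂ := fun i z => α i * z.1 + β i * z.2 with hL
  -- the factors do not vanish
  have hLz : ∀ z ∈ T, ∀ i, L i z ≠ 0 := by
    intro z hz i h0
    have h1 := hval z.1 z.2
    rw [(hT z hz).2.2.2, Finset.prod_eq_zero (Finset.mem_univ i) h0, mul_zero] at h1
    exact hmC h1
  rcases T.eq_empty_or_nonempty with rfl | ⟨z₀, hz₀⟩
  · simp
  have hκ : 0 < ‖κ‖ := by
    rw [norm_pos_iff]
    rintro rfl
    have h1 := hval z₀.1 z₀.2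
    rw [(hT z₀ hz₀).2.2.2, zero_mul] at h1
    exact hmC h1
  have hup : ∀ z ∈ T, ∀ i, ‖L i z‖ ≤ 2 * H * nrm (α i) (β i) := by
    intro z hz i
    obtain ⟨_, hz1, hz2, _⟩ := hT z hz
    calc ‖L i z‖ ≤ ‖α i * z.1‖ + ‖β i * z.2‖ := norm_add_le _ _
      _ = ‖α i‖ * |(z.1 : ℝ)| + ‖β i‖ * |(z.2 : ℝ)| := by
        rw [norm_mul, norm_mul, Complex.norm_intCast, Complex.norm_intCast]
      _ ≤ nrm (α i) (β i) * H + nrm (α i) (β i) * H := by
        apply add_le_add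
        · exact mul_le_mul (le_max_left _ _) hz1 (abs_nonneg _) (nrm_nonneg _ _)
        · exact mul_le_mul (le_max_right _ _) hz2 (abs_nonneg _) (nrm_nonneg _ _)
      _ = 2 * H * nrm (α i) (β i) := by ring
  have hNpos : ∀ i, 0 < 2 * H * nrm (α i) (β i) := fun i =>
    (norm_pos_iff.2 (hLz z₀ hz₀ i)).trans_le (hup z₀ hz₀ i)
  set lo : Fin n → ℝ := fun i => -Real.log ‖κ‖ -
    ∑ j ∈ univ.erase i, Real.log (2 * H * nrm (α j) (β j)) with hlo
  set hi : Fin n → ℝ := fun i => Real.log (2 * H * nrm (α i) (β i)) with hhi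
  have hrange : ∀ z ∈ T, ∀ i, lo i ≤ Real.log ‖L i z‖ ∧ Real.log ‖L i z‖ ≤ hi i := by
    intro z hz i
    refine ⟨?_, Real.log_le_log (norm_pos_iff.2 (hLz z hz i)) (hup z hz i)⟩
    have h1 := hval z.1 z.2
    rw [(hT z hz).2.2.2] at h1
    have h2 : ‖(m : ℂ)‖ = ‖κ‖ * ∏ j, ‖L j z‖ := by rw [h1, norm_mul, norm_prod]
    have h3 : 1 ≤ ‖(m : ℂ)‖ := by
      rw [Complex.norm_intCast]
      exact_mod_cast Int.one_le_abs hm
    have h4 : 0 ≤ Real.log ‖(m : ℂ)‖ := Real.log_nonneg h3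
    rw [h2, Real.log_mul hκ.ne' (Finset.prod_ne_zero_iff.2 fun j _ =>
      (norm_pos_iff.2 (hLz z hz j)).ne'), Real.log_prod (fun j _ =>
      (norm_pos_iff.2 (hLz z hz j)).ne'), ← Finset.add_sum_erase _ _ (Finset.mem_univ i)] at h4
    have h5 : ∑ j ∈ univ.erase i, Real.log ‖L j z‖ ≤
        ∑ j ∈ univ.erase i, Real.log (2 * H * nrm (α j) (β j)) :=
      Finset.sum_le_sum fun j _ => Real.log_le_log (norm_pos_iff.2 (hLz z hz j)) (hup z hz j)
    rw [hlo]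
    linarith
  -- the number of cells
  set B : Fin n → Finset (ℤ × ℤ × ℤ) := fun i =>
    Icc ⌊8 * lo i⌋ ⌊8 * hi i⌋ ×ˢ (Icc (-4 : ℤ) 4 ×ˢ Icc (-4 : ℤ) 4) with hB
  have hlohi : ∀ i, hi i - lo i ≤
      Real.log ((2 * H) ^ n * ((2 * n + 2) ^ n * ((n + 1) ^ (n + 1) * H))) := by
    intro i
    have h1 : hi i - lo i = Real.log (‖κ‖ * ∏ j, (2 * H * nrm (α j) (β j))) := by
      rw [Real.log_mul hκ.ne' (Finset.prod_ne_zero_iff.2 fun j _ => (hNpos j).ne'),
        Real.log_prod (fun j _ => (hNpos j).ne'), ← Finset.add_sum_erase _ _ (Finset.mem_univ i)]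
      rw [hlo, hhi]
      ring
    rw [h1]
    apply Real.log_le_log (mul_pos hκ (Finset.prod_pos fun j _ => hNpos j))
    rw [Finset.prod_mul_distrib, Finset.prod_const, Finset.card_univ, Fintype.card_fin,
      mul_left_comm]
    exact mul_le_mul_of_nonneg_left hnorm (by positivity)
  have hcardB : ∀ i, (B i).card ≤ K * 81 := by
    intro i
    rw [hB]
    simp only [Finset.card_product]
    have h81 : (Icc (-4 : ℤ) 4).card = 9 := by simp
    rw [h81]
    have h1 : (Icc ⌊8 * lo i⌋ ⌊8 * hi i⌋).card ≤ K := by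
      rw [Int.card_Icc]
      have h2 : ⌊8 * hi i⌋ + 1 - ⌊8 * lo i⌋ ≤ (K : ℤ) := by
        rw [hK]
        push_cast
        have h3 := hlohi i
        set R := Real.log ((2 * H) ^ n * ((2 * n + 2) ^ n * ((n + 1) ^ (n + 1) * H))) with hR
        have h4 : ⌊8 * hi i⌋ ≤ 8 * hi i := Int.floor_le _
        have h5 : 8 * lo i < ⌊8 * lo i⌋ + 1 := Int.lt_floor_add_one _
        have h6 : 8 * R < (⌊8 * R⌋₊ : ℝ) + 1 := Nat.lt_floor_add_one _
        have h7 : ((⌊8 * hi i⌋ + 1 - ⌊8 * lo i⌋ : ℤ) : ℝ) < (((⌊8 * R⌋₊ : ℤ) + 2 + 1 : ℤ) : ℝ) := by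
          push_cast
          linarith
        have h8 : ⌊8 * hi i⌋ + 1 - ⌊8 * lo i⌋ < (⌊8 * R⌋₊ : ℤ) + 2 + 1 := by exact_mod_cast h7
        linarith
      have := Int.toNat_le.2 h2
      exact this
    nlinarith
  -- the classes
  have hLBL := THF_LBL n Φ ⟨c, hΦ⟩ m hm T (fun z hz => ⟨(hT z hz).1, by
    rw [(hT z hz).2.2.2]⟩) (2 * (K * 81) ^ n) (by
      intro S hS hrel
      set f : ℤ × ℤ → (Fin n → ℤ × ℤ × ℤ) := fun z i => THF_cell (L i z) with hf
      have h1 : S.card ≤ 2 * (S.image f).card := by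
        apply Finset.card_le_mul_card_image
        intro x hx
        obtain ⟨y, hy, rfl⟩ := Finset.mem_image.1 hx
        have hsub : (S.filter fun z => f z = f y) ⊆ {y, (-y.1, -y.2)} := by
          intro z hz
          obtain ⟨hzS, hfz⟩ := Finset.mem_filter.1 hz
          have hw : y.1 * z.2 - y.2 * z.1 = 0 := by
            by_contra hw
            refine THF_pair n Φ m hm κ α β hval hnp y z (hT y (hS hy)).2.2.2 (hrel y hy z hzS) hw
              fun i => THF_cell_near _ _ (hLz y (hS hy) i) (hLz z (hS hzS) i) ?_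
            exact (congrFun hfz i).symm
          rcases THF_w (hT y (hS hy)).1 (hT z (hS hzS)).1 hw with h | h
          · simp [Prod.ext_iff, h.1, h.2]
          · simp [Prod.ext_iff, h.1, h.2]
        exact (Finset.card_le_card hsub).trans Finset.card_le_two
      refine h1.trans (Nat.mul_le_mul_left 2 ?_)
      have h2 : S.image f ⊆ Fintype.piFinset B := by
        intro x hx
        obtain ⟨z, hz, rfl⟩ := Finset.mem_image.1 hx
        rw [Fintype.mem_piFinset]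
        intro i
        exact THF_cell_mem _ (hLz z (hS hz) i) _ _ (hrange z (hS hz) i).1 (hrange z (hS hz) i).2
      refine (Finset.card_le_card h2).trans ?_
      rw [Fintype.card_piFinset]
      calc ∏ i, (B i).card ≤ ∏ _i : Fin n, K * 81 :=
            Finset.prod_le_prod' fun i _ => hcardB i
        _ = (K * 81) ^ n := by rw [Finset.prod_const, Finset.card_univ, Fintype.card_fin])
  exact hLBL

/-- **THF**: the number of primitive solutions of a Thue equation -/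
theorem THF (n : ℕ) (ε : ℝ) (hε : 0 < ε) : ∃ C : ℝ, 0 < C ∧ ∀ (H : ℝ), 1 ≤ H →
    ∀ (c : ℕ → ℤ), (∀ i ≤ n, |(c i : ℝ)| ≤ H) → ∀ (Φ : ℤ → ℤ → ℤ),
    (∀ u v, Φ u v = ∑ i ∈ range (n + 1), c i * u ^ i * v ^ (n - i)) → NotPow n Φ →
    ∀ (m : ℤ), m ≠ 0 → |(m : ℝ)| ≤ H → ∀ (T : Finset (ℤ × ℤ)),
    (∀ z ∈ T, IsCoprime z.1 z.2 ∧ |(z.1 : ℝ)| ≤ H ∧ |(z.2 : ℝ)| ≤ H ∧ Φ z.1 z.2 = m) →
    (T.card : ℝ) ≤ C * H ^ ε := by
  set δ : ℝ := ε / (2 * n + 1) with hδ
  have hn : (0 : ℝ) ≤ n := Nat.cast_nonneg n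
  have hδ0 : 0 < δ := by positivity
  obtain ⟨C₁, hC₁, hdiv⟩ := Pool.Agent.helper47.RA.card_divisors_le δ hδ0
  set D : ℝ := 2 ^ n * ((2 * n + 2) ^ n * (n + 1) ^ (n + 1)) with hD
  have hD1 : 1 ≤ D := by
    have h1 : (1 : ℝ) ≤ 2 ^ n := one_le_pow₀ (by norm_num)
    have h2 : (1 : ℝ) ≤ (2 * n + 2) ^ n := one_le_pow₀ (by linarith)
    have h3 : (1 : ℝ) ≤ (n + 1) ^ (n + 1) := one_le_pow₀ (by linarith)
    have h4 : (1 : ℝ) ≤ (2 * n + 2) ^ n * (n + 1) ^ (n + 1) := one_le_mul_of_one_le_of_one_le h2 h3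
    exact one_le_mul_of_one_le_of_one_le h1 h4
  set C₂ : ℝ := (8 * Real.log D + 8 * (n + 1) / δ + 2) * 81 with hC₂
  have hC₂0 : 0 < C₂ := by
    have := Real.log_nonneg hD1
    positivity
  refine ⟨2 * C₂ ^ n * C₁ ^ n, by positivity, ?_⟩
  intro H hH c hc Φ hΦ hnp m hm hmH T hT
  have hH0 : 0 < H := by linarith
  have h1 := THF_count n H hH c hc Φ hΦ hnp m hm T hT
  set R := Real.log ((2 * H) ^ n * ((2 * n + 2) ^ n * ((n + 1) ^ (n + 1) * H))) with hR
  have hR2 : R = Real.log D + (n + 1) * Real.log H := by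
    have : (2 * H) ^ n * ((2 * n + 2) ^ n * ((n + 1) ^ (n + 1) * H)) = D * H ^ (n + 1) := by
      rw [hD, mul_pow, pow_succ]
      ring
    rw [hR, this, Real.log_mul (by positivity) (by positivity), Real.log_pow]
    push_cast
    ring
  have hlogH : 0 ≤ Real.log H := Real.log_nonneg hH
  have hR0 : 0 ≤ R := by
    rw [hR2]
    have := Real.log_nonneg hD1
    positivity
  have hHδ : 1 ≤ H ^ δ := Real.one_le_rpow hH hδ0.le
  have hKR : (((⌊8 * R⌋₊ + 2) * 81 : ℕ) : ℝ) ≤ C₂ * H ^ δ := by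
    have h2 : ((⌊8 * R⌋₊ : ℕ) : ℝ) ≤ 8 * R := Nat.floor_le (by positivity)
    have h3 : Real.log H ≤ H ^ δ / δ := Real.log_le_rpow_div hH0.le hδ0
    have h4 : Real.log D ≤ Real.log D * H ^ δ :=
      le_mul_of_one_le_right (Real.log_nonneg hD1) hHδ
    push_cast
    rw [hC₂]
    have h5 : 8 * R ≤ (8 * Real.log D + 8 * (n + 1) / δ) * H ^ δ := by
      rw [hR2]
      have h6 : 8 * ((n + 1) * Real.log H) ≤ 8 * ((n + 1) * (H ^ δ / δ)) := by
        apply mul_le_mul_of_nonneg_left _ (by norm_num)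
        exact mul_le_mul_of_nonneg_left h3 (by linarith)
      have h7 : 8 * ((n + 1) * (H ^ δ / δ)) = 8 * (n + 1) / δ * H ^ δ := by
        field_simp
      linarith
    nlinarith
  have hτ : ((m.natAbs.divisors.card : ℕ) : ℝ) ≤ C₁ * H ^ δ := by
    refine (hdiv m.natAbs (Int.natAbs_pos.2 hm)).trans ?_
    apply mul_le_mul_of_nonneg_left _ (by linarith)
    apply Real.rpow_le_rpow (by positivity) _ hδ0.le
    rw [Nat.cast_natAbs]
    exact_mod_cast hmH
  have h8 : (T.card : ℝ) ≤ 2 * (C₂ * H ^ δ) ^ n * (C₁ * H ^ δ) ^ n := by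
    calc (T.card : ℝ) ≤ ((2 * ((⌊8 * R⌋₊ + 2) * 81) ^ n * m.natAbs.divisors.card ^ n : ℕ) : ℝ) := by
          exact_mod_cast h1
      _ = 2 * (((⌊8 * R⌋₊ + 2) * 81 : ℕ) : ℝ) ^ n * ((m.natAbs.divisors.card : ℕ) : ℝ) ^ n := by
          push_cast
          ring
      _ ≤ 2 * (C₂ * H ^ δ) ^ n * (C₁ * H ^ δ) ^ n := by
          apply mul_le_mul
          · apply mul_le_mul_of_nonneg_left _ (by norm_num)
            exact pow_le_pow_left₀ (by positivity) hKR n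
          · exact pow_le_pow_left₀ (by positivity) hτ n
          · positivity
          · positivity
  refine h8.trans ?_
  have h9 : 2 * (C₂ * H ^ δ) ^ n * (C₁ * H ^ δ) ^ n =
      2 * C₂ ^ n * C₁ ^ n * ((H ^ δ) ^ n * (H ^ δ) ^ n) := by ring
  rw [h9]
  apply mul_le_mul_of_nonneg_left _ (by positivity)
  rw [← pow_add, ← Real.rpow_natCast, ← Real.rpow_mul hH0.le]
  apply Real.rpow_le_rpow_of_exponent_le hH
  rw [hδ]
  push_cast
  rw [div_mul_eq_mul_div, div_le_iff₀ (by positivity)]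
  nlinarith

end Pool.Agent.helper3.HB
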