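import Mathlib

/-!
# Incidences (Kovari, Sos, Turan): if two different points share at most `c` blocks, then the number
of incidences is at most `#B + √(c #B) #P`
-/

set_option autoImplicit false

namespace Pool.Agent.helper3.HB

open Finset

theorem KST_double {α β : Type*} [DecidableEq α] (P : Finset α) (B : Finset β) (R : α → β → Prop)
    [∀ a b, Decidable (R a b)] (c : ℕ)
    (h : ∀ p ∈ P, ∀ p' ∈ P, p ≠ p' → (B.filter fun b => R p b ∧ R p' b).card ≤ c) :
    ∑ b ∈ B, ((P.filter fun p => R p b).card) ^ 2 ≤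
      ∑ b ∈ B, (P.filter fun p => R p b).card + c * P.card ^ 2 := by
  have h1 : ∀ b ∈ B, ((P.filter fun p => R p b).card) ^ 2 =
      ∑ p ∈ P, ∑ p' ∈ P, if R p b ∧ R p' b then 1 else 0 := by
    intro b _
    rw [pow_two, ← Finset.card_product, ← Finset.sum_product', Finset.card_eq_sum_ones,
      ← Finset.sum_filter]
    refine Finset.sum_congr ?_ fun _ _ => rfl
    ext ⟨x, y⟩
    simp only [mem_product, mem_filter]
    tauto
  rw [Finset.sum_congr rfl h1, Finset.sum_comm]
  have h2 : ∀ p ∈ P, ∑ b ∈ B, ∑ p' ∈ P, (if R p b ∧ R p' b then 1 else 0) ≤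
      (B.filter fun b => R p b).card + c * P.card := by
    intro p hp
    rw [Finset.sum_comm, ← Finset.add_sum_erase P _ hp]
    refine Nat.add_le_add ?_ ?_
    · simp only [and_self]
      rw [← Finset.sum_filter, Finset.card_eq_sum_ones]
    · calc ∑ p' ∈ P.erase p, ∑ b ∈ B, (if R p b ∧ R p' b then 1 else 0)
          ≤ ∑ _p' ∈ P.erase p, c := by
            refine Finset.sum_le_sum fun p' hp' => ?_
            rw [← Finset.sum_filter, ← Finset.card_eq_sum_ones]
            exact h p hp p' (Finset.mem_of_mem_erase hp') (Finset.ne_of_mem_erase hp').symm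
        _ = (P.erase p).card * c := by rw [Finset.sum_const, smul_eq_mul]
        _ ≤ P.card * c := Nat.mul_le_mul_right _ (Finset.card_erase_le)
        _ = c * P.card := mul_comm _ _
  calc ∑ p ∈ P, ∑ b ∈ B, ∑ p' ∈ P, (if R p b ∧ R p' b then 1 else 0)
      ≤ ∑ p ∈ P, ((B.filter fun b => R p b).card + c * P.card) := Finset.sum_le_sum h2
    _ = ∑ p ∈ P, (B.filter fun b => R p b).card + P.card * (c * P.card) := by
        rw [Finset.sum_add_distrib, Finset.sum_const, smul_eq_mul]
    _ = ∑ b ∈ B, (P.filter fun p => R p b).card + c * P.card ^ 2 := by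
        congr 1
        · simp only [Finset.card_filter]
          exact Finset.sum_comm
        · ring

/-- the bound for the number of incidences -/
theorem KST {α β : Type*} [DecidableEq α] (P : Finset α) (B : Finset β) (R : α → β → Prop)
    [∀ a b, Decidable (R a b)] (c : ℕ)
    (h : ∀ p ∈ P, ∀ p' ∈ P, p ≠ p' → (B.filter fun b => R p b ∧ R p' b).card ≤ c) :
    ((∑ b ∈ B, (P.filter fun p => R p b).card : ℕ) : ℝ) ≤
      B.card + Real.sqrt (c * B.card) * P.card := by
  set I : ℕ := ∑ b ∈ B, (P.filter fun p => R p b).card with hI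
  have h1 : I ^ 2 ≤ B.card * ∑ b ∈ B, ((P.filter fun p => R p b).card) ^ 2 :=
    sq_sum_le_card_mul_sum_sq
  have h2 := KST_double P B R c h
  rw [← hI] at h2
  have h3 : I ^ 2 ≤ B.card * (I + c * P.card ^ 2) := h1.trans (Nat.mul_le_mul_left _ h2)
  have h4 : (I : ℝ) ^ 2 ≤ B.card * (I + c * P.card ^ 2) := by exact_mod_cast h3
  have hs : 0 ≤ Real.sqrt (c * B.card) := Real.sqrt_nonneg _
  have hs2 : Real.sqrt (c * B.card) ^ 2 = c * B.card := Real.sq_sqrt (by positivity)
  by_contra hlt
  rw [not_le] at hlt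
  have hB : (0 : ℝ) ≤ B.card := Nat.cast_nonneg _
  have hP : (0 : ℝ) ≤ P.card := Nat.cast_nonneg _
  have h5 : Real.sqrt (c * B.card) * P.card < I - B.card := by linarith
  have h6 : 0 ≤ Real.sqrt (c * B.card) * P.card := mul_nonneg hs hP
  have h7 : 0 < (I : ℝ) - B.card := lt_of_le_of_lt h6 h5
  have h8 : (Real.sqrt (c * B.card) * P.card) ^ 2 < (I - B.card) ^ 2 := by
    apply pow_lt_pow_left₀ h5 h6 (by norm_num)
  rw [mul_pow, hs2] at h8
  nlinarith

end Pool.Agent.helper3.HB
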