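import Mathlib

/-!
# The number of solutions of `X² - d V² = m` in a box

For `d ≠ 0`, `m ≠ 0` it is at most `τ(m)³ (8 log₂ (4 B²) + 30)` (elementary; no ideals).
-/

set_option autoImplicit false

namespace Pool.Agent.helper3.HB

open Finset

/-- a set of positive integers `≤ Z` in which each element is at least twice each smaller one -/
theorem PEL_double (A : Finset ℕ) (Z : ℕ) (h0 : ∀ a ∈ A, 0 < a ∧ a ≤ Z)
    (h : ∀ a ∈ A, ∀ b ∈ A, a < b → 2 * a ≤ b) : A.card ≤ Nat.log 2 Z + 1 := by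
  have hinj : Set.InjOn (Nat.log 2) (A : Set ℕ) := by
    intro a ha b hb hab
    have ha' := h0 a ha
    have hb' := h0 b hb
    have key : ∀ x ∈ A, ∀ y ∈ A, x < y → Nat.log 2 x ≠ Nat.log 2 y := by
      intro x hx y hy hxy he
      have h1 := h x hx y hy hxy
      have hx0 := (h0 x hx).1
      have h2 : Nat.log 2 (2 * x) ≤ Nat.log 2 y := Nat.log_mono_right h1
      rw [mul_comm, Nat.log_mul_base (by norm_num) hx0.ne'] at h2
      omega
    rcases lt_trichotomy a b with hlt | heq | hgt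
    · exact absurd hab (key a ha b hb hlt)
    · exact heq
    · exact absurd hab.symm (key b hb a ha hgt)
  calc A.card = (A.image (Nat.log 2)).card := (Finset.card_image_of_injOn hinj).symm
    _ ≤ (range (Nat.log 2 Z + 1)).card := by
        apply Finset.card_le_card
        intro x hx
        obtain ⟨a, ha, rfl⟩ := Finset.mem_image.1 hx
        rw [Finset.mem_range]
        exact Nat.lt_succ_of_le (Nat.log_mono_right (h0 a ha).2)
    _ = Nat.log 2 Z + 1 := Finset.card_range _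

/-- two solutions of `U² - d W² = 4`: the larger `W` is at least twice the smaller -/
theorem PEL_step (d U₁ W₁ U₂ W₂ : ℤ) (hd : 0 < d) (h1 : U₁ ^ 2 - d * W₁ ^ 2 = 4)
    (h2 : U₂ ^ 2 - d * W₂ ^ 2 = 4) (hU1 : 0 < U₁) (hU2 : 0 < U₂) (hW1 : 0 < W₁) (hW : W₁ < W₂) :
    2 * W₁ ≤ W₂ := by
  -- the numerator of `W''`
  have hpos : 0 < U₁ * W₂ - U₂ * W₁ := by
    have h3 : (U₁ * W₂) ^ 2 - (U₂ * W₁) ^ 2 = 4 * (W₂ ^ 2 - W₁ ^ 2) := by
      linear_combination W₂ ^ 2 * h1 - W₁ ^ 2 * h2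
    have h4 : 0 < W₂ ^ 2 - W₁ ^ 2 := by nlinarith
    have h5 : 0 < (U₁ * W₂ - U₂ * W₁) * (U₁ * W₂ + U₂ * W₁) := by nlinarith
    have hW2 : 0 < W₂ := by linarith
    have h6 : 0 < U₁ * W₂ + U₂ * W₁ := by positivity
    by_contra hneg
    rw [not_lt] at hneg
    nlinarith
  have hpar : ∀ U W : ℤ, U ^ 2 - d * W ^ 2 = 4 → (2 : ℤ) ∣ U - d * W := by
    intro U W h
    have h7 : (U - d * W) % 2 = 0 := by
      have h8 : (U ^ 2 - d * W ^ 2) % 2 = 0 := by rw [h]; norm_num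
      rcases Int.emod_two_eq_zero_or_one U with hu | hu <;>
        rcases Int.emod_two_eq_zero_or_one W with hw | hw <;>
          rcases Int.emod_two_eq_zero_or_one d with hdd | hdd <;>
            simp [pow_two, Int.sub_emod, Int.mul_emod, hu, hw, hdd] at h8 ⊢
    exact Int.dvd_of_emod_eq_zero h7
  have hdvd : (2 : ℤ) ∣ U₁ * W₂ - U₂ * W₁ := by
    have ha := hpar U₁ W₁ h1
    have hb := hpar U₂ W₂ h2
    have : U₁ * W₂ - U₂ * W₁ = (U₁ - d * W₁) * W₂ - (U₂ - d * W₂) * W₁ := by ring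
    rw [this]
    exact dvd_sub (ha.mul_right _) (hb.mul_right _)
  obtain ⟨w, hw⟩ := hdvd
  have hdvd2 : (2 : ℤ) ∣ U₁ * U₂ - d * W₁ * W₂ := by
    have ha := hpar U₁ W₁ h1
    have hb := hpar U₂ W₂ h2
    have h9 : (2 : ℤ) ∣ d * (d - 1) := by
      rcases Int.emod_two_eq_zero_or_one d with hdd | hdd
      · exact (Int.dvd_of_emod_eq_zero hdd).mul_right _
      · exact (Int.dvd_of_emod_eq_zero (by omega)).mul_left _
    have : U₁ * U₂ - d * W₁ * W₂ = (U₁ - d * W₁) * U₂ + d * W₁ * (U₂ - d * W₂) +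
        d * (d - 1) * (W₁ * W₂) := by ring
    rw [this]
    exact dvd_add (dvd_add (ha.mul_right _) (hb.mul_left _)) (h9.mul_right _)
  obtain ⟨u, hu⟩ := hdvd2
  have hw1 : 1 ≤ w := by
    have : 0 < w := by linarith
    linarith
  have hrel : u ^ 2 - d * w ^ 2 = 4 := by
    have h10 : (2 * u) ^ 2 - d * (2 * w) ^ 2 = 16 := by
      rw [← hu, ← hw]
      linear_combination (U₂ ^ 2 - d * W₂ ^ 2) * h1 + 4 * h2
    linarith
  have hupos : 0 < u := by
    have h11 : d * W₁ * W₂ < U₁ * U₂ := by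
      have h12 : (d * W₁ * W₂) ^ 2 < (U₁ * U₂) ^ 2 := by
        have e1 : U₁ ^ 2 = d * W₁ ^ 2 + 4 := by linarith
        have e2 : U₂ ^ 2 = d * W₂ ^ 2 + 4 := by linarith
        have : (U₁ * U₂) ^ 2 = (d * W₁ ^ 2 + 4) * (d * W₂ ^ 2 + 4) := by
          rw [mul_pow, e1, e2]
        rw [this]
        have : 0 < d * W₁ ^ 2 := by positivity
        have : 0 < d * W₂ ^ 2 := by
          have : 0 < W₂ := by linarith
          positivity
        nlinarith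
      exact lt_of_pow_lt_pow_left₀ 2 (by positivity) h12
    linarith
  have hu3 : 3 ≤ u := by
    by_contra hlt
    have h13 : u ≤ 2 := by omega
    have h14 : 0 < d * w ^ 2 := by positivity
    nlinarith
  have hfin : U₁ * w + u * W₁ = 2 * W₂ := by
    have h15 : 2 * (U₁ * w + u * W₁) = 4 * W₂ := by
      have : 2 * (U₁ * w + u * W₁) = U₁ * (2 * w) + (2 * u) * W₁ := by ring
      rw [this, ← hw, ← hu]
      linear_combination W₂ * h1
    linarith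
  have hUW : W₁ ≤ U₁ := by
    by_contra hlt
    rw [not_le] at hlt
    have : U₁ ^ 2 < W₁ ^ 2 := by nlinarith
    nlinarith [sq_nonneg W₁]
  nlinarith

theorem PEL_step' (d U₁ W₁ U₂ W₂ : ℤ) (hd : d ≠ 0) (h1 : U₁ ^ 2 - d * W₁ ^ 2 = 4)
    (h2 : U₂ ^ 2 - d * W₂ ^ 2 = 4) (hW1 : 0 < W₁) (hW : W₁ < W₂) : 2 * W₁ ≤ W₂ := by
  rcases lt_or_gt_of_ne hd with hneg | hpos
  · have h3 : W₂ ≤ 2 := by
      by_contra hlt
      rw [not_le] at hlt
      have h4 : 9 ≤ W₂ ^ 2 := by nlinarith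
      have h5 : 9 ≤ (-d) * W₂ ^ 2 := by nlinarith
      nlinarith [sq_nonneg U₂]
    omega
  · have e1 : |U₁| ^ 2 - d * W₁ ^ 2 = 4 := by rw [sq_abs]; exact h1
    have e2 : |U₂| ^ 2 - d * W₂ ^ 2 = 4 := by rw [sq_abs]; exact h2
    have hW2 : 0 < W₂ := by linarith
    have n1 : U₁ ≠ 0 := by
      rintro rfl
      have : 0 < d * W₁ ^ 2 := by positivity
      linarith
    have n2 : U₂ ≠ 0 := by
      rintro rfl
      have : 0 < d * W₂ ^ 2 := by positivity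
      linarith
    exact PEL_step d |U₁| W₁ |U₂| W₂ hpos e1 e2 (abs_pos.2 n1) (abs_pos.2 n2) hW1 hW

/-- the number of solutions of `U² - d W² = 4` with `|W| ≤ Z` -/
theorem PEL_unit (d : ℤ) (hd : d ≠ 0) (Z : ℕ) (T : Finset (ℤ × ℤ))
    (hT : ∀ z ∈ T, z.1 ^ 2 - d * z.2 ^ 2 = 4 ∧ |z.2| ≤ Z) : T.card ≤ 4 * (Nat.log 2 Z + 2) := by
  have h1 : (T.image fun z => z.2.natAbs).card ≤ Nat.log 2 Z + 2 := by
    have h2 : ((T.image fun z => z.2.natAbs).erase 0).card ≤ Nat.log 2 Z + 1 := by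
      apply PEL_double
      · intro a ha
        obtain ⟨ha0, ha1⟩ := Finset.mem_erase.1 ha
        obtain ⟨z, hz, rfl⟩ := Finset.mem_image.1 ha1
        refine ⟨Nat.pos_of_ne_zero ha0, ?_⟩
        have := (hT z hz).2
        rw [Int.abs_eq_natAbs] at this
        exact_mod_cast this
      · intro a ha b hb hab
        obtain ⟨ha0, ha1⟩ := Finset.mem_erase.1 ha
        obtain ⟨z, hz, rfl⟩ := Finset.mem_image.1 ha1
        obtain ⟨hb0, hb1⟩ := Finset.mem_erase.1 hb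
        obtain ⟨w, hw, rfl⟩ := Finset.mem_image.1 hb1
        have e1 : z.1 ^ 2 - d * ((z.2.natAbs : ℕ) : ℤ) ^ 2 = 4 := by
          rw [Int.natCast_natAbs, sq_abs]; exact (hT z hz).1
        have e2 : w.1 ^ 2 - d * ((w.2.natAbs : ℕ) : ℤ) ^ 2 = 4 := by
          rw [Int.natCast_natAbs, sq_abs]; exact (hT w hw).1
        have := PEL_step' d z.1 _ w.1 _ hd e1 e2 (by exact_mod_cast Nat.pos_of_ne_zero ha0)
          (by exact_mod_cast hab)
        exact_mod_cast this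
    have h3 := Finset.pred_card_le_card_erase (s := T.image fun z => z.2.natAbs) (a := 0)
    omega
  have h4 : T.card ≤ 4 * (T.image fun z => z.2.natAbs).card := by
    apply Finset.card_le_mul_card_image
    intro a ha
    obtain ⟨z, hz, rfl⟩ := Finset.mem_image.1 ha
    have hsub : (T.filter fun x => x.2.natAbs = z.2.natAbs) ⊆ {z.1, -z.1} ×ˢ {z.2, -z.2} := by
      intro w hw
      obtain ⟨hw, he⟩ := Finset.mem_filter.1 hw
      have hw1 := (hT w hw).1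
      have hz1 := (hT z hz).1
      have he2 : w.2 = z.2 ∨ w.2 = -z.2 := Int.natAbs_eq_natAbs_iff.1 he
      have he3 : w.2 ^ 2 = z.2 ^ 2 := by
        rcases he2 with h | h <;> rw [h] <;> ring
      have he4 : w.1 ^ 2 = z.1 ^ 2 := by
        rw [he3] at hw1
        linarith
      have he5 : w.1 = z.1 ∨ w.1 = -z.1 := sq_eq_sq_iff_eq_or_eq_neg.1 he4
      simp only [mem_product, mem_insert, mem_singleton]
      exact ⟨he5, he2⟩
    calc (T.filter fun x => x.2.natAbs = z.2.natAbs).card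
        ≤ (({z.1, -z.1} : Finset ℤ) ×ˢ ({z.2, -z.2} : Finset ℤ)).card := Finset.card_le_card hsub
      _ = ({z.1, -z.1} : Finset ℤ).card * ({z.2, -z.2} : Finset ℤ).card := Finset.card_product _ _
      _ ≤ 2 * 2 := Nat.mul_le_mul Finset.card_le_two Finset.card_le_two
      _ = 4 := by norm_num
  calc T.card ≤ 4 * (T.image fun z => z.2.natAbs).card := h4
    _ ≤ 4 * (Nat.log 2 Z + 2) := Nat.mul_le_mul_left _ h1

/-- the reduced solutions -/
def PEL_Good (d m X V : ℤ) : Prop :=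
  X ^ 2 - d * V ^ 2 = m ∧ IsCoprime X V ∧ ∀ q : ℕ, q.Prime → ¬ ((q : ℤ) ∣ X ∧ (q : ℤ) ^ 2 ∣ d)

theorem PEL_cop {d m X V : ℤ} (h : PEL_Good d m X V) : IsCoprime m V := by
  have h1 : IsCoprime (X ^ 2) V := h.2.1.pow_left
  have h2 : m = X ^ 2 + V * (-(d * V)) := by rw [← h.1]; ring
  rw [h2]
  exact IsCoprime.add_mul_left_left h1 _

theorem PEL_cls {d m X₁ V₁ X₂ V₂ X₃ V₃ : ℤ} (hm : m ≠ 0) (h1 : PEL_Good d m X₁ V₁)
    (h2 : PEL_Good d m X₂ V₂) (h3 : PEL_Good d m X₃ V₃)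
    (h : Int.gcd m (X₁ * V₂ - X₂ * V₁) = Int.gcd m (X₁ * V₃ - X₃ * V₁)) :
    m ∣ 2 * (X₂ * V₃ - X₃ * V₂) ∧ m ∣ 2 * (X₂ * X₃ - d * V₂ * V₃) := by
  have c1 := PEL_cop h1
  have c2 := PEL_cop h2
  set g : ℤ := (Int.gcd m (X₁ * V₂ - X₂ * V₁) : ℤ) with hg
  have hgm : g ∣ m := Int.gcd_dvd_left ..
  have hga : g ∣ X₁ * V₂ - X₂ * V₁ := Int.gcd_dvd_right ..
  have hga' : g ∣ X₁ * V₃ - X₃ * V₁ := by
    rw [hg, h]
    exact Int.gcd_dvd_right ..
  obtain ⟨k, hk⟩ := hgm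
  have hg0 : g ≠ 0 := by
    intro h0
    rw [h0, zero_mul] at hk
    exact hm hk
  -- `k` divides the sums
  have hprod : ∀ X V : ℤ, X ^ 2 - d * V ^ 2 = m → m ∣ (X₁ * V - X * V₁) * (X₁ * V + X * V₁) := by
    intro X V he
    refine ⟨V ^ 2 - V₁ ^ 2, ?_⟩
    linear_combination V ^ 2 * h1.1 - V₁ ^ 2 * he
  have hkdvd : ∀ a b : ℤ, g = (Int.gcd m a : ℤ) → m ∣ a * b → k ∣ b := by
    intro a b hga2 hab
    have hgcd : IsCoprime k (a / g) := by
      rw [Int.isCoprime_iff_gcd_eq_one]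
      have h5 : k = m / g := by rw [hk]; exact (Int.mul_ediv_cancel_left _ hg0).symm
      rw [h5, hga2]
      exact Int.gcd_ediv_gcd_ediv_gcd (Int.gcd_pos_of_ne_zero_left _ hm)
    have hgda : g ∣ a := by rw [hga2]; exact Int.gcd_dvd_right ..
    obtain ⟨a', ha'⟩ := hgda
    have h6 : a / g = a' := by rw [ha']; exact Int.mul_ediv_cancel_left _ hg0
    rw [h6] at hgcd
    have h7 : g * k ∣ g * (a' * b) := by
      rw [← hk]
      have : g * (a' * b) = a * b := by rw [ha']; ring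
      rw [this]
      exact hab
    have h8 : k ∣ a' * b := (mul_dvd_mul_iff_left hg0).1 h7
    exact hgcd.dvd_of_dvd_mul_left h8
  have hk2 : k ∣ X₁ * V₂ + X₂ * V₁ := hkdvd _ _ rfl (hprod X₂ V₂ h2.1)
  have hk3 : k ∣ X₁ * V₃ + X₃ * V₁ := hkdvd _ _ (by rw [hg, h]) (hprod X₃ V₃ h3.1)
  -- both `g` and `k` divide `a₂₃`
  have cg : IsCoprime g V₁ := by
    rw [hk] at c1
    exact IsCoprime.of_mul_left_left c1
  have ck : IsCoprime k V₁ := by
    rw [hk] at c1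
    exact IsCoprime.of_mul_left_right c1
  have cg2 : IsCoprime g V₂ := by
    rw [hk] at c2
    exact IsCoprime.of_mul_left_left c2
  have hg23 : g ∣ X₂ * V₃ - X₃ * V₂ := by
    apply cg.dvd_of_dvd_mul_left
    have : V₁ * (X₂ * V₃ - X₃ * V₂) = V₂ * (X₁ * V₃ - X₃ * V₁) - V₃ * (X₁ * V₂ - X₂ * V₁) := by
      ring
    rw [this]
    exact dvd_sub (hga'.mul_left _) (hga.mul_left _)
  have hk23 : k ∣ X₂ * V₃ - X₃ * V₂ := by
    apply ck.dvd_of_dvd_mul_left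
    have : V₁ * (X₂ * V₃ - X₃ * V₂) = V₃ * (X₁ * V₂ + X₂ * V₁) - V₂ * (X₁ * V₃ + X₃ * V₁) := by
      ring
    rw [this]
    exact dvd_sub (hk2.mul_left _) (hk3.mul_left _)
  -- the greatest common divisor of `g` and `k` divides `2`
  have hgk : ((Int.gcd g k : ℕ) : ℤ) ∣ 2 := by
    set e : ℤ := ((Int.gcd g k : ℕ) : ℤ) with he
    have he1 : e ∣ g := Int.gcd_dvd_left ..
    have he2 : e ∣ k := Int.gcd_dvd_right ..
    have he3 : e ∣ 2 * X₁ := by
      have c3 : IsCoprime e V₂ := IsCoprime.of_isCoprime_of_dvd_left cg2 he1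
      apply c3.dvd_of_dvd_mul_left
      have : V₂ * (2 * X₁) = (X₁ * V₂ - X₂ * V₁) + (X₁ * V₂ + X₂ * V₁) := by ring
      rw [this]
      exact dvd_add (he1.trans hga) (he2.trans hk2)
    have he4 : IsCoprime e X₁ := by
      rw [Int.isCoprime_iff_gcd_eq_one]
      by_contra hne
      obtain ⟨q, hq, hqd⟩ := Nat.exists_prime_and_dvd hne
      have hqe : (q : ℤ) ∣ e := (Int.natCast_dvd_natCast.2 hqd).trans (Int.gcd_dvd_left ..)
      have hqX : (q : ℤ) ∣ X₁ := (Int.natCast_dvd_natCast.2 hqd).trans (Int.gcd_dvd_right ..)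
      have hq2m : (q : ℤ) ^ 2 ∣ m := by
        rw [hk, pow_two]
        exact mul_dvd_mul (hqe.trans he1) (hqe.trans he2)
      have hq2X : (q : ℤ) ^ 2 ∣ X₁ ^ 2 := pow_dvd_pow_of_dvd hqX 2
      have hq2d : (q : ℤ) ^ 2 ∣ d * V₁ ^ 2 := by
        have : d * V₁ ^ 2 = X₁ ^ 2 - m := by rw [← h1.1]; ring
        rw [this]
        exact dvd_sub hq2X hq2m
      have c4 : IsCoprime ((q : ℤ) ^ 2) (V₁ ^ 2) := by
        apply IsCoprime.pow
        exact IsCoprime.of_isCoprime_of_dvd_left h1.2.1 hqX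
      exact h1.2.2 q hq ⟨hqX, c4.dvd_of_dvd_mul_right hq2d⟩
    exact he4.dvd_of_dvd_mul_right he3
  have hfirst : m ∣ 2 * (X₂ * V₃ - X₃ * V₂) := by
    obtain ⟨t, ht⟩ := hgk
    have hl : (Int.lcm g k : ℤ) ∣ X₂ * V₃ - X₃ * V₂ := Int.coe_lcm_dvd hg23 hk23
    have h9 : ((Int.gcd g k : ℕ) : ℤ) * (Int.lcm g k : ℤ) = |m| := by
      have h10 := Int.gcd_mul_lcm g k
      rw [hk, Int.abs_eq_natAbs, Int.natAbs_mul]
      exact_mod_cast h10
    have h11 : |m| ∣ 2 * (X₂ * V₃ - X₃ * V₂) := by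
      rw [← h9, ht]
      have : ((Int.gcd g k : ℕ) : ℤ) * t * (X₂ * V₃ - X₃ * V₂) =
          ((Int.gcd g k : ℕ) : ℤ) * (X₂ * V₃ - X₃ * V₂) * t := by ring
      rw [this]
      exact (mul_dvd_mul_left _ hl).mul_right _
    exact (abs_dvd _ _).1 h11
  refine ⟨hfirst, ?_⟩
  apply c2.dvd_of_dvd_mul_left
  have : V₂ * (2 * (X₂ * X₃ - d * V₂ * V₃)) =
      -(X₂ * (2 * (X₂ * V₃ - X₃ * V₂))) + m * (2 * V₃) := by
    rw [← h2.1]; ring
  rw [this]
  exact dvd_add ((hfirst.mul_left _).neg_right) (dvd_mul_right _ _)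

/-- the number of reduced solutions in a box -/
theorem PEL_red (d m : ℤ) (hd : d ≠ 0) (hm : m ≠ 0) (B : ℕ) (T : Finset (ℤ × ℤ))
    (hT : ∀ z ∈ T, PEL_Good d m z.1 z.2 ∧ |z.1| ≤ B ∧ |z.2| ≤ B) :
    T.card ≤ 4 * (Nat.log 2 (4 * B ^ 2) + 2) * m.natAbs.divisors.card := by
  rcases T.eq_empty_or_nonempty with rfl | ⟨s₁, hs₁⟩
  · simp
  set f : ℤ × ℤ → ℕ := fun z => Int.gcd m (s₁.1 * z.2 - z.1 * s₁.2) with hf
  have h1 : T.card ≤ 4 * (Nat.log 2 (4 * B ^ 2) + 2) * (T.image f).card := by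
    apply Finset.card_le_mul_card_image
    intro a ha
    obtain ⟨s₂, hs₂, rfl⟩ := Finset.mem_image.1 ha
    set F := T.filter fun x => f x = f s₂ with hF
    set u : ℤ × ℤ → ℤ × ℤ := fun z => (2 * (s₂.1 * z.1 - d * s₂.2 * z.2) / m,
      2 * (s₂.1 * z.2 - z.1 * s₂.2) / m) with hu
    have hdvd : ∀ z ∈ F, m ∣ 2 * (s₂.1 * z.2 - z.1 * s₂.2) ∧
        m ∣ 2 * (s₂.1 * z.1 - d * s₂.2 * z.2) := by
      intro z hz
      obtain ⟨hzT, hzf⟩ := Finset.mem_filter.1 hz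
      exact PEL_cls hm (hT s₁ hs₁).1 (hT s₂ hs₂).1 (hT z hzT).1 hzf.symm
    have hinj : Set.InjOn u (F : Set (ℤ × ℤ)) := by
      intro z hz w hw hzw
      have hz1 := hdvd z hz
      have hw1 := hdvd w hw
      have e1 : 2 * (s₂.1 * z.1 - d * s₂.2 * z.2) = 2 * (s₂.1 * w.1 - d * s₂.2 * w.2) := by
        have := congrArg Prod.fst hzw
        simp only [hu] at this
        obtain ⟨a, ha⟩ := hz1.2
        obtain ⟨b, hb⟩ := hw1.2
        rw [ha, hb, Int.mul_ediv_cancel_left _ hm, Int.mul_ediv_cancel_left _ hm] at this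
        rw [ha, hb, this]
      have e2 : 2 * (s₂.1 * z.2 - z.1 * s₂.2) = 2 * (s₂.1 * w.2 - w.1 * s₂.2) := by
        have := congrArg Prod.snd hzw
        simp only [hu] at this
        obtain ⟨a, ha⟩ := hz1.1
        obtain ⟨b, hb⟩ := hw1.1
        rw [ha, hb, Int.mul_ediv_cancel_left _ hm, Int.mul_ediv_cancel_left _ hm] at this
        rw [ha, hb, this]
      have hs2 := (hT s₂ hs₂).1.1
      have e1' := mul_left_cancel₀ (two_ne_zero' ℤ) e1
      have e2' := mul_left_cancel₀ (two_ne_zero' ℤ) e2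
      have e3 : m * (z.1 - w.1) = 0 := by
        rw [← hs2]
        linear_combination s₂.1 * e1' + d * s₂.2 * e2'
      have e4 : m * (z.2 - w.2) = 0 := by
        rw [← hs2]
        linear_combination s₂.1 * e2' + s₂.2 * e1'
      have e5 : z.1 = w.1 := by
        rcases mul_eq_zero.1 e3 with h | h
        · exact absurd h hm
        · linarith
      have e6 : z.2 = w.2 := by
        rcases mul_eq_zero.1 e4 with h | h
        · exact absurd h hm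
        · linarith
      exact Prod.ext e5 e6
    rw [← Finset.card_image_of_injOn hinj]
    apply PEL_unit d hd
    intro y hy
    obtain ⟨z, hz, rfl⟩ := Finset.mem_image.1 hy
    obtain ⟨⟨a, ha⟩, ⟨b, hb⟩⟩ := hdvd z hz
    have hzT := (Finset.mem_filter.1 hz).1
    have hy1 : u z = (b, a) := by
      simp only [hu, ha, hb, Int.mul_ediv_cancel_left _ hm]
    rw [hy1]
    have hs2 := (hT s₂ hs₂).1.1
    have hz2 := (hT z hzT).1.1
    refine ⟨?_, ?_⟩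
    · have h5 : m ^ 2 * (b ^ 2 - d * a ^ 2) = m ^ 2 * 4 := by
        have : m ^ 2 * (b ^ 2 - d * a ^ 2) = (m * b) ^ 2 - d * (m * a) ^ 2 := by ring
        rw [this, ← ha, ← hb]
        have h6 : (2 * (s₂.1 * z.1 - d * s₂.2 * z.2)) ^ 2 -
            d * (2 * (s₂.1 * z.2 - z.1 * s₂.2)) ^ 2 =
            4 * ((s₂.1 ^ 2 - d * s₂.2 ^ 2) * (z.1 ^ 2 - d * z.2 ^ 2)) := by ring
        rw [h6, hs2, hz2]
        ring
      exact mul_left_cancel₀ (pow_ne_zero 2 hm) h5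
    · have h7 : |m * a| ≤ 4 * (B : ℤ) ^ 2 := by
        rw [← ha]
        have b1 := (hT s₂ hs₂).2.1
        have b2 := (hT s₂ hs₂).2.2
        have b3 := (hT z hzT).2.1
        have b4 := (hT z hzT).2.2
        have c1 : |s₂.1 * z.2| ≤ (B : ℤ) ^ 2 := by
          rw [abs_mul, pow_two]
          exact mul_le_mul b1 b4 (abs_nonneg _) (by positivity)
        have c2 : |z.1 * s₂.2| ≤ (B : ℤ) ^ 2 := by
          rw [abs_mul, pow_two]
          exact mul_le_mul b3 b2 (abs_nonneg _) (by positivity)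
        rw [abs_mul]
        have c3 := abs_sub (s₂.1 * z.2) (z.1 * s₂.2)
        have c4 : |(2 : ℤ)| = 2 := by norm_num
        rw [c4]
        linarith
      have h8 : |a| ≤ |m * a| := by
        rw [abs_mul]
        have : 1 ≤ |m| := Int.one_le_abs hm
        nlinarith [abs_nonneg a]
      push_cast
      exact h8.trans h7
  refine h1.trans (Nat.mul_le_mul_left _ (Finset.card_le_card ?_))
  intro x hx
  obtain ⟨z, _, rfl⟩ := Finset.mem_image.1 hx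
  rw [Nat.mem_divisors]
  refine ⟨?_, Int.natAbs_ne_zero.2 hm⟩
  exact Int.natCast_dvd.1 (Int.gcd_dvd_left ..)

/-- reduction to the reduced solutions -/
theorem PEL_exists (d m X V : ℤ) (hd : d ≠ 0) (hm : m ≠ 0) (h : X ^ 2 - d * V ^ 2 = m) :
    ∃ (c g : ℕ) (X' V' : ℤ), 0 < c ∧ 0 < g ∧ X = c * g * X' ∧ V = c * V' ∧ (g : ℤ) ^ 2 ∣ d ∧
      (c : ℤ) ^ 2 * (g : ℤ) ^ 2 ∣ m ∧
      PEL_Good (d / (g : ℤ) ^ 2) (m / ((c : ℤ) ^ 2 * (g : ℤ) ^ 2)) X' V' := by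
  have hXV : ¬ (X = 0 ∧ V = 0) := by
    rintro ⟨rfl, rfl⟩
    apply hm
    rw [← h]
    ring
  have hc : 0 < Int.gcd X V := by
    rw [Nat.pos_iff_ne_zero, Ne, Int.gcd_eq_zero_iff]
    exact hXV
  obtain ⟨X₁, hX₁⟩ : ((Int.gcd X V : ℕ) : ℤ) ∣ X := Int.gcd_dvd_left ..
  obtain ⟨V₁, hV₁⟩ : ((Int.gcd X V : ℕ) : ℤ) ∣ V := Int.gcd_dvd_right ..
  have hcop : IsCoprime X₁ V₁ := by
    rw [Int.isCoprime_iff_gcd_eq_one]
    have h1 := Int.gcd_ediv_gcd_ediv_gcd hc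
    have hc' : ((Int.gcd X V : ℕ) : ℤ) ≠ 0 := by exact_mod_cast hc.ne'
    have e1 : X / ((Int.gcd X V : ℕ) : ℤ) = X₁ := Int.ediv_eq_of_eq_mul_right hc' hX₁
    have e2 : V / ((Int.gcd X V : ℕ) : ℤ) = V₁ := Int.ediv_eq_of_eq_mul_right hc' hV₁
    rwa [e1, e2] at h1
  set c := Int.gcd X V with hcdef
  -- the largest `g`
  set S := (Icc 1 d.natAbs).filter fun g : ℕ => (g : ℤ) ∣ X₁ ∧ (g : ℤ) ^ 2 ∣ d with hS
  have hSne : S.Nonempty := ⟨1, by
    rw [hS, Finset.mem_filter, Finset.mem_Icc]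
    refine ⟨⟨le_refl _, ?_⟩, ?_, ?_⟩
    · exact Int.natAbs_pos.2 hd
    · simp
    · simp⟩
  obtain ⟨g, hgS, hgmax⟩ := S.exists_max_image id hSne
  rw [hS, Finset.mem_filter, Finset.mem_Icc] at hgS
  obtain ⟨⟨hg1, _⟩, ⟨X', hX'⟩, ⟨d', hd'⟩⟩ := hgS
  have hg0 : (g : ℤ) ≠ 0 := by exact_mod_cast (by omega : g ≠ 0)
  have hc0 : (c : ℤ) ≠ 0 := by exact_mod_cast hc.ne'
  have hmeq : m = (c : ℤ) ^ 2 * (g : ℤ) ^ 2 * (X' ^ 2 - d' * V₁ ^ 2) := by
    rw [← h]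
    conv_lhs => rw [hX₁, hV₁, hX', hd']
    ring
  have hd'e : d / (g : ℤ) ^ 2 = d' := by
    rw [hd']
    exact Int.mul_ediv_cancel_left _ (pow_ne_zero 2 hg0)
  have hm'e : m / ((c : ℤ) ^ 2 * (g : ℤ) ^ 2) = X' ^ 2 - d' * V₁ ^ 2 := by
    conv_lhs => rw [hmeq]
    exact Int.mul_ediv_cancel_left _ (mul_ne_zero (pow_ne_zero 2 hc0) (pow_ne_zero 2 hg0))
  refine ⟨c, g, X', V₁, hc, hg1, ?_, hV₁, ⟨d', hd'⟩, ⟨_, hmeq⟩, ?_, ?_, ?_⟩
  · rw [hX₁, hX']; ring
  · rw [hd'e, hm'e]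
  · rw [hX'] at hcop
    exact IsCoprime.of_mul_left_right hcop
  · rintro q hq ⟨hqX, hqd⟩
    rw [hd'e] at hqd
    have hmem : g * q ∈ S := by
      rw [hS, Finset.mem_filter, Finset.mem_Icc]
      have hdd : ((g * q : ℕ) : ℤ) ^ 2 ∣ d := by
        rw [hd']
        push_cast
        rw [mul_pow]
        exact mul_dvd_mul_left _ hqd
      refine ⟨⟨Nat.mul_pos hg1 hq.pos, ?_⟩, ?_, hdd⟩
      · have h2 : (g * q) ^ 2 ∣ d.natAbs := by
          have := Int.natAbs_dvd_natAbs.2 hdd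
          rwa [Int.natAbs_pow, Int.natAbs_natCast] at this
        have h3 := Nat.le_of_dvd (Int.natAbs_pos.2 hd) h2
        have h4 : 1 ≤ g * q := Nat.mul_pos hg1 hq.pos
        nlinarith
      · rw [hX']
        push_cast
        exact mul_dvd_mul_left _ hqX
    have h5 := hgmax _ hmem
    simp only [id] at h5
    have h6 := hq.two_le
    nlinarith

/-- **PEL**: the number of solutions of `X² - d V² = m` in a box -/
theorem PEL_card (d m : ℤ) (hd : d ≠ 0) (hm : m ≠ 0) (B : ℕ) (T : Finset (ℤ × ℤ))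
    (hT : ∀ z ∈ T, z.1 ^ 2 - d * z.2 ^ 2 = m ∧ |z.1| ≤ B ∧ |z.2| ≤ B) :
    T.card ≤ 4 * (Nat.log 2 (4 * B ^ 2) + 2) * m.natAbs.divisors.card ^ 3 := by
  classical
  have hex : ∀ z : ℤ × ℤ, ∃ (cg : ℕ × ℕ) (w : ℤ × ℤ), z ∈ T → (0 < cg.1 ∧ 0 < cg.2 ∧
      z.1 = cg.1 * cg.2 * w.1 ∧ z.2 = cg.1 * w.2 ∧ (cg.2 : ℤ) ^ 2 ∣ d ∧
      (cg.1 : ℤ) ^ 2 * (cg.2 : ℤ) ^ 2 ∣ m ∧
      PEL_Good (d / (cg.2 : ℤ) ^ 2) (m / ((cg.1 : ℤ) ^ 2 * (cg.2 : ℤ) ^ 2)) w.1 w.2) := by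
    intro z
    by_cases hz : z ∈ T
    · obtain ⟨c, g, X', V', h⟩ := PEL_exists d m z.1 z.2 hd hm (hT z hz).1
      exact ⟨(c, g), (X', V'), fun _ => h⟩
    · exact ⟨(0, 0), (0, 0), fun h => absurd h hz⟩
  choose cg w hcw using hex
  set n := m.natAbs.divisors.card with hn
  have himg : (T.image cg).card ≤ n ^ 2 := by
    have hsub : T.image cg ⊆ m.natAbs.divisors ×ˢ m.natAbs.divisors := by
      intro x hx
      obtain ⟨z, hz, rfl⟩ := Finset.mem_image.1 hx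
      obtain ⟨_, _, _, _, _, h6, _⟩ := hcw z hz
      have hm' : m.natAbs ≠ 0 := Int.natAbs_ne_zero.2 hm
      have h7 : (((cg z).1 ^ 2 * (cg z).2 ^ 2 : ℕ) : ℤ) ∣ m := by push_cast; exact h6
      have h8 := Int.natCast_dvd.1 h7
      rw [Finset.mem_product, Nat.mem_divisors, Nat.mem_divisors]
      refine ⟨⟨?_, hm'⟩, ⟨?_, hm'⟩⟩
      · exact (Dvd.intro_left ((cg z).1 * (cg z).2 ^ 2) (by ring)).trans h8
      · exact (Dvd.intro_left ((cg z).1 ^ 2 * (cg z).2) (by ring)).trans h8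
    calc (T.image cg).card ≤ (m.natAbs.divisors ×ˢ m.natAbs.divisors).card :=
          Finset.card_le_card hsub
      _ = n ^ 2 := by rw [Finset.card_product, pow_two]
  have hfib : T.card ≤ (4 * (Nat.log 2 (4 * B ^ 2) + 2) * n) * (T.image cg).card := by
    apply Finset.card_le_mul_card_image
    intro a ha
    obtain ⟨z₀, hz₀, rfl⟩ := Finset.mem_image.1 ha
    obtain ⟨hc0, hg0, _, _, hgd, hcgm, _⟩ := hcw z₀ hz₀
    set F := T.filter fun x => cg x = cg z₀ with hF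
    obtain ⟨d', hd'⟩ := hgd
    obtain ⟨m', hm'⟩ := hcgm
    have hg0' : ((cg z₀).2 : ℤ) ≠ 0 := by exact_mod_cast hg0.ne'
    have hc0' : ((cg z₀).1 : ℤ) ≠ 0 := by exact_mod_cast hc0.ne'
    have hde : d / ((cg z₀).2 : ℤ) ^ 2 = d' := by
      conv_lhs => rw [hd']
      exact Int.mul_ediv_cancel_left _ (pow_ne_zero 2 hg0')
    have hme : m / (((cg z₀).1 : ℤ) ^ 2 * ((cg z₀).2 : ℤ) ^ 2) = m' := by
      conv_lhs => rw [hm']
      exact Int.mul_ediv_cancel_left _ (mul_ne_zero (pow_ne_zero 2 hc0') (pow_ne_zero 2 hg0'))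
    have hd0 : d' ≠ 0 := by
      rintro rfl
      rw [mul_zero] at hd'
      exact hd hd'
    have hm0 : m' ≠ 0 := by
      rintro rfl
      rw [mul_zero] at hm'
      exact hm hm'
    have hinj : Set.InjOn w (F : Set (ℤ × ℤ)) := by
      intro x hx y hy hxy
      obtain ⟨hxT, hxc⟩ := Finset.mem_filter.1 hx
      obtain ⟨hyT, hyc⟩ := Finset.mem_filter.1 hy
      obtain ⟨_, _, hx1, hx2, _⟩ := hcw x hxT
      obtain ⟨_, _, hy1, hy2, _⟩ := hcw y hyT
      rw [hxc, hxy] at hx1 hx2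
      rw [hyc] at hy1 hy2
      exact Prod.ext (hx1.trans hy1.symm) (hx2.trans hy2.symm)
    rw [← Finset.card_image_of_injOn hinj]
    have h9 := PEL_red d' m' hd0 hm0 B (F.image w) (by
      intro y hy
      obtain ⟨x, hx, rfl⟩ := Finset.mem_image.1 hy
      obtain ⟨hxT, hxc⟩ := Finset.mem_filter.1 hx
      obtain ⟨_, _, hx1, hx2, _, _, hgood⟩ := hcw x hxT
      rw [hxc] at hx1 hx2 hgood
      rw [hde, hme] at hgood
      refine ⟨hgood, ?_, ?_⟩
      · have b1 := (hT x hxT).2.1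
        rw [hx1, abs_mul] at b1
        have : 1 ≤ |((cg z₀).1 : ℤ) * ((cg z₀).2 : ℤ)| :=
          Int.one_le_abs (mul_ne_zero hc0' hg0')
        nlinarith [abs_nonneg (w x).1]
      · have b2 := (hT x hxT).2.2
        rw [hx2, abs_mul] at b2
        have : 1 ≤ |((cg z₀).1 : ℤ)| := Int.one_le_abs hc0'
        nlinarith [abs_nonneg (w x).2])
    refine h9.trans (Nat.mul_le_mul_left _ ?_)
    apply Finset.card_le_card
    apply Nat.divisors_subset_of_dvd (Int.natAbs_ne_zero.2 hm)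
    rw [hm']
    exact Int.natAbs_dvd_natAbs.2 (dvd_mul_left _ _)
  calc T.card ≤ (4 * (Nat.log 2 (4 * B ^ 2) + 2) * n) * (T.image cg).card := hfib
    _ ≤ (4 * (Nat.log 2 (4 * B ^ 2) + 2) * n) * n ^ 2 := Nat.mul_le_mul_left _ himg
    _ = 4 * (Nat.log 2 (4 * B ^ 2) + 2) * n ^ 3 := by ring

end Pool.Agent.helper3.HB
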