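import Mathlib

/-!
# Binary forms: two decompositions and the labels

`THF_LBL`: primitive points at which an integral form of degree `k` is divisible by `M` fall into at
most `τ(M)^k` classes, such that for two points `y`, `z` of a class the form `Ψ(s y + t z)` in
`(s, t)` is `M` times an integral form.
-/

set_option autoImplicit false

namespace Pool.Agent.helper3.HB

open Finset

/-- `Ψ` is a binary form of degree `k` -/
def IsForm {R : Type*} [CommRing R] (k : ℕ) (Ψ : R → R → R) : Prop :=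
  ∃ c : ℕ → R, ∀ u v : R, Ψ u v = ∑ i ∈ range (k + 1), c i * u ^ i * v ^ (k - i)

section

variable {R : Type*} [CommRing R]

theorem IsForm.congr {k : ℕ} {Ψ Ψ' : R → R → R} (h : IsForm k Ψ) (he : ∀ u v, Ψ' u v = Ψ u v) :
    IsForm k Ψ' := by
  obtain ⟨c, hc⟩ := h
  exact ⟨c, fun u v => by rw [he, hc]⟩

theorem IsForm.add {k : ℕ} {Ψ Ψ' : R → R → R} (h : IsForm k Ψ) (h' : IsForm k Ψ') :
    IsForm k (fun u v => Ψ u v + Ψ' u v) := by
  obtain ⟨c, hc⟩ := h
  obtain ⟨c', hc'⟩ := h'
  refine ⟨fun i => c i + c' i, fun u v => ?_⟩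
  simp only [hc, hc', ← Finset.sum_add_distrib]
  exact Finset.sum_congr rfl fun i _ => by ring

theorem IsForm.smul {k : ℕ} {Ψ : R → R → R} (h : IsForm k Ψ) (a : R) :
    IsForm k (fun u v => a * Ψ u v) := by
  obtain ⟨c, hc⟩ := h
  refine ⟨fun i => a * c i, fun u v => ?_⟩
  simp only [hc, Finset.mul_sum]
  exact Finset.sum_congr rfl fun i _ => by ring

theorem IsForm.zero (k : ℕ) : IsForm k (fun _ _ : R => (0 : R)) :=
  ⟨fun _ => 0, fun u v => by simp⟩

theorem IsForm.sum {k : ℕ} {ι : Type*} (s : Finset ι) (Ψ : ι → R → R → R)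
    (h : ∀ i ∈ s, IsForm k (Ψ i)) : IsForm k (fun u v => ∑ i ∈ s, Ψ i u v) := by
  classical
  induction s using Finset.induction_on with
  | empty => exact (IsForm.zero k).congr fun u v => by simp
  | insert a s ha ih =>
    have h1 := ih fun i hi => h i (Finset.mem_insert_of_mem hi)
    have h2 := h a (Finset.mem_insert_self _ _)
    exact (h2.add h1).congr fun u v => by simp [Finset.sum_insert ha]

theorem IsForm.mul_fst {k : ℕ} {Ψ : R → R → R} (h : IsForm k Ψ) :
    IsForm (k + 1) (fun u v => u * Ψ u v) := by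
  obtain ⟨c, hc⟩ := h
  refine ⟨fun i => if i = 0 then 0 else c (i - 1), fun u v => ?_⟩
  rw [Finset.sum_range_succ']
  simp only [if_true, zero_mul, add_zero, Nat.add_sub_cancel, hc, Finset.mul_sum]
  refine Finset.sum_congr rfl fun i hi => ?_
  have h1 : k + 1 - (i + 1) = k - i := by omega
  rw [if_neg (Nat.succ_ne_zero i), h1]
  ring

theorem IsForm.mul_snd {k : ℕ} {Ψ : R → R → R} (h : IsForm k Ψ) :
    IsForm (k + 1) (fun u v => v * Ψ u v) := by
  obtain ⟨c, hc⟩ := h
  refine ⟨fun i => if i = k + 1 then 0 else c i, fun u v => ?_⟩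
  rw [Finset.sum_range_succ]
  simp only [if_true, zero_mul, add_zero, hc, Finset.mul_sum]
  refine Finset.sum_congr rfl fun i hi => ?_
  have h0 : i < k + 1 := Finset.mem_range.1 hi
  have h1 : k + 1 - i = k - i + 1 := by omega
  rw [if_neg h0.ne, h1]
  ring

theorem IsForm.mul_lin {k : ℕ} {Ψ : R → R → R} (h : IsForm k Ψ) (a b : R) :
    IsForm (k + 1) (fun u v => (a * u + b * v) * Ψ u v) :=
  ((h.mul_fst.smul a).add (h.mul_snd.smul b)).congr fun u v => by ring

theorem IsForm.one : IsForm 0 (fun _ _ : R => (1 : R)) := ⟨fun _ => 1, fun u v => by simp⟩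

theorem IsForm.const (a : R) : IsForm 0 (fun _ _ : R => a) := ⟨fun _ => a, fun u v => by simp⟩

theorem IsForm.lin_pow (a b : R) (i : ℕ) : IsForm i (fun u v => (a * u + b * v) ^ i) := by
  induction i with
  | zero => exact IsForm.one.congr fun u v => by simp
  | succ i ih => exact (ih.mul_lin a b).congr fun u v => by rw [pow_succ]; ring

theorem IsForm.mul_lin_pow {k : ℕ} {Ψ : R → R → R} (h : IsForm k Ψ) (a b : R) (i : ℕ) :
    IsForm (k + i) (fun u v => (a * u + b * v) ^ i * Ψ u v) := by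
  induction i with
  | zero => exact h.congr fun u v => by simp
  | succ i ih => exact (ih.mul_lin a b).congr fun u v => by rw [pow_succ]; ring

theorem IsForm.monomial (a b a' b' : R) (k i : ℕ) (hi : i ≤ k) :
    IsForm k (fun u v => (a * u + b * v) ^ i * (a' * u + b' * v) ^ (k - i)) := by
  have h := (IsForm.lin_pow a' b' (k - i)).mul_lin_pow a b i
  rwa [Nat.sub_add_cancel hi] at h

theorem IsForm.comp {k : ℕ} {Ψ : R → R → R} (h : IsForm k Ψ) (a b a' b' : R) :
    IsForm k (fun u v => Ψ (a * u + b * v) (a' * u + b' * v)) := by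
  obtain ⟨c, hc⟩ := h
  have h1 : IsForm k (fun u v => ∑ i ∈ range (k + 1),
      c i * ((a * u + b * v) ^ i * (a' * u + b' * v) ^ (k - i))) :=
    IsForm.sum _ _ fun i hi => (IsForm.monomial a b a' b' k i
      (Nat.lt_succ_iff.1 (Finset.mem_range.1 hi))).smul (c i)
  exact h1.congr fun u v => by rw [hc]; exact Finset.sum_congr rfl fun i _ => by ring

theorem IsForm.mul {k l : ℕ} {Ψ Ψ' : R → R → R} (h : IsForm k Ψ) (h' : IsForm l Ψ') :
    IsForm (k + l) (fun u v => Ψ u v * Ψ' u v) := by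
  obtain ⟨c, hc⟩ := h
  have h1 : IsForm (l + k) (fun u v => ∑ i ∈ range (k + 1),
      c i * (u ^ i * (v ^ (k - i) * Ψ' u v))) := by
    refine IsForm.sum _ _ fun i hi => ?_
    have hi' : i ≤ k := Nat.lt_succ_iff.1 (Finset.mem_range.1 hi)
    have h2 := (h'.mul_lin_pow 0 1 (k - i)).mul_lin_pow 1 0 i
    have h3 : l + (k - i) + i = l + k := by omega
    rw [h3] at h2
    exact (h2.smul (c i)).congr fun u v => by ring
  rw [add_comm k l]
  exact h1.congr fun u v => by
    rw [hc, Finset.sum_mul]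
    exact Finset.sum_congr rfl fun i _ => by ring

/-- the decomposition at a unimodular point -/
theorem IsForm.dec {k : ℕ} {Ψ : R → R → R} (h : IsForm (k + 1) Ψ) (x₁ x₂ p q : R)
    (hx : x₁ * q - x₂ * p = 1) : ∃ Ψ' : R → R → R, IsForm k Ψ' ∧
      ∀ u v, Ψ u v = Ψ x₁ x₂ * (u * q - v * p) ^ (k + 1) + (x₁ * v - x₂ * u) * Ψ' u v := by
  obtain ⟨e, he⟩ := h.comp x₁ p x₂ q
  refine ⟨fun u v => ∑ i ∈ range (k + 1), e i * ((q * u + -p * v) ^ i *
    (-x₂ * u + x₁ * v) ^ (k - i)), ?_, ?_⟩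
  · exact IsForm.sum _ _ fun i hi => (IsForm.monomial _ _ _ _ k i
      (Nat.lt_succ_iff.1 (Finset.mem_range.1 hi))).smul (e i)
  · intro u v
    have h1 := he (u * q - v * p) (x₁ * v - x₂ * u)
    have hu : x₁ * (u * q - v * p) + p * (x₁ * v - x₂ * u) = u := by linear_combination u * hx
    have hv : x₂ * (u * q - v * p) + q * (x₁ * v - x₂ * u) = v := by linear_combination v * hx
    simp only [hu, hv] at h1
    have h2 := he 1 0
    simp only [mul_one, mul_zero, add_zero] at h2
    rw [Finset.sum_range_succ] at h2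
    have h3 : ∑ i ∈ range (k + 1), e i * (1 : R) ^ i * 0 ^ (k + 1 - i) = 0 := by
      apply Finset.sum_eq_zero
      intro i hi
      have : k + 1 - i ≠ 0 := by
        have := Finset.mem_range.1 hi
        omega
      rw [zero_pow this, mul_zero]
    rw [h3] at h2
    simp only [one_pow, mul_one, Nat.sub_self, pow_zero, zero_add] at h2
    rw [h1, Finset.sum_range_succ, h2, Nat.sub_self, pow_zero, mul_one, Finset.mul_sum, add_comm]
    congr 1
    refine Finset.sum_congr rfl fun i hi => ?_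
    have h4 : k + 1 - i = k - i + 1 := by
      have := Finset.mem_range.1 hi
      omega
    rw [h4, pow_succ]
    ring

end

theorem THF_dvd {m a b g k : ℤ} (hm : m ≠ 0) (hg : g = (Int.gcd m a : ℤ)) (hk : m = g * k)
    (hab : m ∣ a * b) : k ∣ b := by
  have hg0 : g ≠ 0 := by
    intro h0
    rw [h0, zero_mul] at hk
    exact hm hk
  have hgcd : IsCoprime k (a / g) := by
    rw [Int.isCoprime_iff_gcd_eq_one]
    have h5 : k = m / g := by
      rw [hk]
      exact (Int.mul_ediv_cancel_left _ hg0).symm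
    rw [h5, hg]
    exact Int.gcd_ediv_gcd_ediv_gcd (Int.gcd_pos_of_ne_zero_left _ hm)
  have hgda : g ∣ a := by rw [hg]; exact Int.gcd_dvd_right ..
  obtain ⟨a', ha'⟩ := hgda
  have h6 : a / g = a' := by rw [ha']; exact Int.mul_ediv_cancel_left _ hg0
  rw [h6] at hgcd
  have h7 : g * k ∣ g * (a' * b) := by
    rw [← hk]
    have : g * (a' * b) = a * b := by rw [ha']; ring
    rw [this]
    exact hab
  have h8 : k ∣ a' * b := (mul_dvd_mul_iff_left hg0).1 h7
  exact hgcd.dvd_of_dvd_mul_left h8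

/-- the relation of two points of a class -/
def THF_rel (k : ℕ) (Ψ : ℤ → ℤ → ℤ) (M : ℤ) (y z : ℤ × ℤ) : Prop :=
  ∃ G : ℤ → ℤ → ℤ, IsForm k G ∧
    ∀ s t : ℤ, Ψ (s * y.1 + t * z.1) (s * y.2 + t * z.2) = M * G s t

/-- **the labels** -/
theorem THF_LBL (k : ℕ) : ∀ (Ψ : ℤ → ℤ → ℤ), IsForm k Ψ → ∀ (M : ℤ), M ≠ 0 →
    ∀ (T : Finset (ℤ × ℤ)), (∀ z ∈ T, IsCoprime z.1 z.2 ∧ M ∣ Ψ z.1 z.2) → ∀ (N : ℕ),
    (∀ S ⊆ T, (∀ y ∈ S, ∀ z ∈ S, THF_rel k Ψ M y z) → S.card ≤ N) →
    T.card ≤ N * M.natAbs.divisors.card ^ k := by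
  classical
  induction k with
  | zero =>
    intro Ψ hΨ M hM T hT N hN
    rw [pow_zero, mul_one]
    apply hN T (Finset.Subset.refl _)
    intro y hy z hz
    obtain ⟨c, hc⟩ := hΨ
    have hc' : ∀ u v, Ψ u v = c 0 := by
      intro u v
      rw [hc]
      simp
    obtain ⟨d, hd⟩ := (hT y hy).2
    refine ⟨fun _ _ => d, IsForm.const d, fun s t => ?_⟩
    rw [hc', ← hd, hc']
  | succ k ih =>
    intro Ψ hΨ M hM T hT N hN
    rcases T.eq_empty_or_nonempty with rfl | ⟨x, hx⟩
    · simp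
    obtain ⟨⟨q, p, hqp⟩, ψ, hψ⟩ := hT x hx
    have hb : x.1 * q - x.2 * (-p) = 1 := by linear_combination hqp
    obtain ⟨Ψ', hΨ', h1⟩ := hΨ.dec x.1 x.2 (-p) q hb
    set f : ℤ × ℤ → ℕ := fun z => Int.gcd M (x.1 * z.2 - x.2 * z.1) with hf
    have hlev : T.card ≤ (N * M.natAbs.divisors.card ^ k) * (T.image f).card := by
      apply Finset.card_le_mul_card_image
      intro g hg
      obtain ⟨x₂, hx₂, rfl⟩ := Finset.mem_image.1 hg
      set S := T.filter fun x => f x = f x₂ with hS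
      set α : ℤ := ((f x₂ : ℕ) : ℤ) with hα
      obtain ⟨l, hl⟩ : α ∣ M := Int.gcd_dvd_left ..
      have hl0 : l ≠ 0 := by
        rintro rfl
        rw [mul_zero] at hl
        exact hM hl
      have hlM : l ∣ M := ⟨α, by rw [hl]; ring⟩
      have hS' : ∀ z ∈ S, α ∣ x.1 * z.2 - x.2 * z.1 ∧ l ∣ Ψ' z.1 z.2 := by
        intro z hz
        obtain ⟨hzT, hzf⟩ := Finset.mem_filter.1 hz
        have e1 : α = (Int.gcd M (x.1 * z.2 - x.2 * z.1) : ℤ) := by
          rw [hα, ← hzf]
        refine ⟨?_, ?_⟩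
        · rw [e1]; exact Int.gcd_dvd_right ..
        · apply THF_dvd hM e1 hl
          obtain ⟨w, hw⟩ := (hT z hzT).2
          have h3 := h1 z.1 z.2
          rw [hw, hψ] at h3
          exact ⟨w - ψ * (z.1 * q - z.2 * (-p)) ^ (k + 1), by linear_combination -h3⟩
      have h4 := ih Ψ' hΨ' l hl0 S (fun z hz => ⟨(hT z (Finset.mem_filter.1 hz).1).1,
        (hS' z hz).2⟩) N (by
          intro S' hS'S hrel
          apply hN S' (hS'S.trans (Finset.filter_subset _ _))
          intro y hy z hz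
          obtain ⟨G, hG, hG'⟩ := hrel y hy z hz
          obtain ⟨t₁, ht₁⟩ := (hS' y (hS'S hy)).1
          obtain ⟨t₂, ht₂⟩ := (hS' z (hS'S hz)).1
          refine ⟨fun s t => ψ * ((y.1 * q - y.2 * (-p)) * s + (z.1 * q - z.2 * (-p)) * t) ^
            (k + 1) + (t₁ * s + t₂ * t) * G s t, ?_, ?_⟩
          · exact ((IsForm.lin_pow _ _ (k + 1)).smul ψ).add (hG.mul_lin t₁ t₂)
          · intro s t
            rw [h1, hG' s t, hψ]
            have e2 : x.1 * (s * y.2 + t * z.2) - x.2 * (s * y.1 + t * z.1) =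
                α * (t₁ * s + t₂ * t) := by
              linear_combination s * ht₁ + t * ht₂
            rw [e2]
            conv_rhs => rw [mul_add]
            have e3 : α * (t₁ * s + t₂ * t) * (l * G s t) = M * ((t₁ * s + t₂ * t) * G s t) := by
              rw [hl]; ring
            rw [e3]
            ring)
      refine h4.trans (Nat.mul_le_mul_left _ (Nat.pow_le_pow_left (Finset.card_le_card ?_) k))
      exact Nat.divisors_subset_of_dvd (Int.natAbs_ne_zero.2 hM) (Int.natAbs_dvd_natAbs.2 hlM)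
    have himg : (T.image f).card ≤ M.natAbs.divisors.card := by
      apply Finset.card_le_card
      intro y hy
      obtain ⟨z, _, rfl⟩ := Finset.mem_image.1 hy
      rw [Nat.mem_divisors]
      exact ⟨Int.natCast_dvd.1 (Int.gcd_dvd_left ..), Int.natAbs_ne_zero.2 hM⟩
    calc T.card ≤ (N * M.natAbs.divisors.card ^ k) * (T.image f).card := hlev
      _ ≤ (N * M.natAbs.divisors.card ^ k) * M.natAbs.divisors.card :=
          Nat.mul_le_mul_left _ himg
      _ = N * M.natAbs.divisors.card ^ (k + 1) := by ring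

end Pool.Agent.helper3.HB
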