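import Pool.Agent.helper3.HB.THF1

/-!
# Binary forms over `ℂ`: linear factors, test points, monic polynomials with roots near `-1`, cells
-/

set_option autoImplicit false

namespace Pool.Agent.helper3.HB

open Finset

theorem THF_zero (n : ℕ) (Ψ : ℂ → ℂ → ℂ) (h : IsForm (n + 1) Ψ) :
    ∃ x₁ x₂ p q : ℂ, x₁ * q - x₂ * p = 1 ∧ Ψ x₁ x₂ = 0 := by
  obtain ⟨c, hc⟩ := h
  by_cases h0 : c (n + 1) = 0
  · refine ⟨1, 0, 0, 1, by ring, ?_⟩
    rw [hc, Finset.sum_range_succ, h0]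
    have h3 : ∑ i ∈ range (n + 1), c i * (1 : ℂ) ^ i * 0 ^ (n + 1 - i) = 0 := by
      apply Finset.sum_eq_zero
      intro i hi
      have : n + 1 - i ≠ 0 := by
        have := Finset.mem_range.1 hi
        omega
      rw [zero_pow this, mul_zero]
    rw [h3]
    ring
  · set P : Polynomial ℂ := ∑ i ∈ range (n + 1 + 1), Polynomial.C (c i) * Polynomial.X ^ i with hP
    have hcoeff : P.coeff (n + 1) = c (n + 1) := by
      rw [hP, Polynomial.finset_sum_coeff]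
      simp only [Polynomial.coeff_C_mul, Polynomial.coeff_X_pow]
      rw [Finset.sum_eq_single (n + 1)]
      · simp
      · intro b _ hb
        rw [if_neg hb.symm, mul_zero]
      · intro h
        exact absurd (Finset.mem_range.2 (Nat.lt_succ_self _)) h
    have hdeg : P.degree ≠ 0 := by
      intro hd
      have h1 : P.coeff (n + 1) = 0 := by
        apply Polynomial.coeff_eq_zero_of_degree_lt
        rw [hd]
        exact_mod_cast Nat.succ_pos n
      rw [hcoeff] at h1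
      exact h0 h1
    obtain ⟨T, hT⟩ := IsAlgClosed.exists_root P hdeg
    refine ⟨T, 1, -1, 0, by ring, ?_⟩
    rw [Polynomial.IsRoot.def, hP, Polynomial.eval_finset_sum] at hT
    rw [hc, ← hT]
    refine Finset.sum_congr rfl fun i _ => ?_
    rw [Polynomial.eval_mul, Polynomial.eval_C, Polynomial.eval_pow, Polynomial.eval_X, one_pow,
      mul_one]

/-- the linear factors -/
theorem THF_fac (n : ℕ) : ∀ (Ψ : ℂ → ℂ → ℂ), IsForm n Ψ → ∃ (κ : ℂ) (α β : Fin n → ℂ),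
    ∀ u v, Ψ u v = κ * ∏ i, (α i * u + β i * v) := by
  induction n with
  | zero =>
    rintro Ψ ⟨c, hc⟩
    refine ⟨c 0, fun _ => 0, fun _ => 0, fun u v => ?_⟩
    rw [hc]
    simp
  | succ n ih =>
    intro Ψ h
    obtain ⟨x₁, x₂, p, q, hx, h0⟩ := THF_zero n Ψ h
    obtain ⟨Ψ', h', h1⟩ := h.dec x₁ x₂ p q hx
    obtain ⟨κ, α, β, h2⟩ := ih Ψ' h'
    refine ⟨κ, Fin.cons (-x₂) α, Fin.cons x₁ β, fun u v => ?_⟩
    rw [h1, h0, zero_mul, zero_add, h2, Fin.prod_univ_succ]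
    simp only [Fin.cons_zero, Fin.cons_succ]
    ring

/-- the norm of a linear form -/
noncomputable def nrm (α β : ℂ) : ℝ := max ‖α‖ ‖β‖

theorem nrm_nonneg (α β : ℂ) : 0 ≤ nrm α β := (norm_nonneg α).trans (le_max_left _ _)

theorem THF_bad (n : ℕ) (α β : ℂ) (j j' : ℕ) (hj : j ≤ n)
    (h : ‖α + β * j‖ < nrm α β / (2 * n + 2)) (h' : ‖α + β * j'‖ < nrm α β / (2 * n + 2)) :
    j = j' := by
  by_contra hne
  have hN := nrm_nonneg α β
  have hn : (0 : ℝ) ≤ n := Nat.cast_nonneg n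
  have hdiff : 1 ≤ ‖((j : ℂ) - j')‖ := by
    have h1 : ((j : ℂ) - j') = (((j : ℤ) - j' : ℤ) : ℂ) := by push_cast; ring
    rw [h1, Complex.norm_intCast]
    have h2 : 1 ≤ |(j : ℤ) - j'| := Int.one_le_abs (by
      intro h3
      apply hne
      exact_mod_cast sub_eq_zero.1 h3)
    exact_mod_cast h2
  have h1 : ‖β‖ < nrm α β / (n + 1) := by
    calc ‖β‖ ≤ ‖β‖ * ‖((j : ℂ) - j')‖ := le_mul_of_one_le_right (norm_nonneg _) hdiff
      _ = ‖(α + β * j) - (α + β * j')‖ := by rw [← norm_mul]; ring_nf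
      _ ≤ ‖α + β * j‖ + ‖α + β * j'‖ := norm_sub_le _ _
      _ < nrm α β / (2 * n + 2) + nrm α β / (2 * n + 2) := add_lt_add h h'
      _ = nrm α β / (n + 1) := by field_simp; ring
  have h2 : nrm α β / (n + 1) ≤ nrm α β := div_le_self hN (by linarith)
  have h3 : nrm α β = ‖α‖ := by
    rcases max_choice ‖α‖ ‖β‖ with h4 | h4
    · exact h4
    · exfalso
      have : nrm α β = ‖β‖ := h4
      linarith
  have h5 : ‖α‖ ≤ ‖α + β * j‖ + ‖β‖ * n := by
    calc ‖α‖ = ‖(α + β * j) - β * j‖ := by ring_nf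
      _ ≤ ‖α + β * j‖ + ‖β * j‖ := norm_sub_le _ _
      _ ≤ ‖α + β * j‖ + ‖β‖ * n := by
        have h6 : ‖β * (j : ℂ)‖ ≤ ‖β‖ * n := by
          rw [norm_mul, Complex.norm_natCast]
          exact mul_le_mul_of_nonneg_left (by exact_mod_cast hj) (norm_nonneg _)
        linarith
  have h7 : ‖β‖ * n ≤ nrm α β / (n + 1) * n := mul_le_mul_of_nonneg_right h1.le hn
  have h8 : nrm α β / (2 * n + 2) + nrm α β / (n + 1) * n =
      nrm α β - nrm α β / (2 * n + 2) := by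
    field_simp
    ring
  have h9 : 0 ≤ nrm α β / (2 * n + 2) := by positivity
  linarith

/-- the product of the norms of the factors -/
theorem THF_norm (n : ℕ) (Ψ : ℂ → ℂ → ℂ) (c : ℕ → ℂ) (H : ℝ) (hH : 0 ≤ H)
    (hc : ∀ u v, Ψ u v = ∑ i ∈ range (n + 1), c i * u ^ i * v ^ (n - i))
    (hcH : ∀ i ≤ n, ‖c i‖ ≤ H) (κ : ℂ) (α β : Fin n → ℂ)
    (hval : ∀ u v, Ψ u v = κ * ∏ i, (α i * u + β i * v)) :
    ‖κ‖ * ∏ i, nrm (α i) (β i) ≤ (2 * n + 2) ^ n * ((n + 1) ^ (n + 1) * H) := by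
  obtain ⟨j, hj⟩ : ∃ j : Fin (n + 1), ∀ i : Fin n, nrm (α i) (β i) / (2 * n + 2) ≤
      ‖α i + β i * (j : ℕ)‖ := by
    by_contra hcon
    push Not at hcon
    choose f hf using hcon
    have hinj : Function.Injective f := by
      intro j j' h
      have h1 := hf j
      have h2 := hf j'
      rw [← h] at h2
      exact Fin.ext (THF_bad n _ _ j j' (Nat.lt_succ_iff.1 j.2) h1 h2)
    have := Fintype.card_le_of_injective f hinj
    simp at this
  have hj0 : ((j : ℕ) : ℝ) ≤ n + 1 := by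
    have := j.2
    exact_mod_cast this.le
  have h1 : ‖Ψ 1 (j : ℕ)‖ ≤ (n + 1) ^ (n + 1) * H := by
    rw [hc]
    have h2 : ∀ i ∈ range (n + 1), ‖c i * (1 : ℂ) ^ i * ((j : ℕ) : ℂ) ^ (n - i)‖ ≤
        H * (n + 1) ^ n := by
      intro i hi
      rw [one_pow, mul_one, norm_mul, norm_pow, Complex.norm_natCast]
      have h3 : ((j : ℕ) : ℝ) ^ (n - i) ≤ (n + 1) ^ n :=
        (pow_le_pow_left₀ (Nat.cast_nonneg _) hj0 _).trans
          (pow_le_pow_right₀ (by linarith [(Nat.cast_nonneg n : (0 : ℝ) ≤ n)]) (Nat.sub_le _ _))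
      exact mul_le_mul (hcH i (Nat.lt_succ_iff.1 (Finset.mem_range.1 hi))) h3 (by positivity) hH
    calc ‖∑ i ∈ range (n + 1), c i * (1 : ℂ) ^ i * ((j : ℕ) : ℂ) ^ (n - i)‖
        ≤ ∑ i ∈ range (n + 1), ‖c i * (1 : ℂ) ^ i * ((j : ℕ) : ℂ) ^ (n - i)‖ := norm_sum_le _ _
      _ ≤ ∑ _i ∈ range (n + 1), H * ((n : ℝ) + 1) ^ n := Finset.sum_le_sum h2
      _ = (n + 1) ^ (n + 1) * H := by
        rw [Finset.sum_const, Finset.card_range, nsmul_eq_mul, pow_succ]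
        push_cast
        ring
  rw [hval, norm_mul, norm_prod] at h1
  have h4 : ∏ i, nrm (α i) (β i) / (2 * n + 2) ≤ ∏ i, ‖α i * 1 + β i * ((j : ℕ) : ℂ)‖ := by
    apply Finset.prod_le_prod
    · intro i _
      have := nrm_nonneg (α i) (β i)
      positivity
    · intro i _
      rw [mul_one]
      exact hj i
  have h5 : ∏ i, nrm (α i) (β i) / (2 * (n : ℝ) + 2) =
      (∏ i, nrm (α i) (β i)) / (2 * n + 2) ^ n := by
    rw [Finset.prod_div_distrib, Finset.prod_const, Finset.card_univ, Fintype.card_fin]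
  have h6 : ‖κ‖ * ((∏ i, nrm (α i) (β i)) / (2 * n + 2) ^ n) ≤ (n + 1) ^ (n + 1) * H := by
    rw [← h5]
    exact (mul_le_mul_of_nonneg_left h4 (norm_nonneg _)).trans h1
  have h7 : (0 : ℝ) < (2 * n + 2) ^ n := by positivity
  rw [← mul_div_assoc, div_le_iff₀ h7] at h6
  linarith

/-- a monic integral polynomial all of whose roots have distance `< 1` from `-1` is `(X + 1)^n` -/
theorem THF_MON {ι : Type*} [DecidableEq ι] (k : ℕ) : ∀ (s : Finset ι), s.card = k →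
    ∀ (r : ι → ℂ), (∀ i ∈ s, ‖r i - 1‖ < 1) → ∀ (P : Polynomial ℤ),
    P.map (Int.castRingHom ℂ) = ∏ i ∈ s, (Polynomial.X + Polynomial.C (r i)) →
    ∀ i ∈ s, r i = 1 := by
  induction k with
  | zero =>
    intro s hs r _ P _ i hi
    rw [Finset.card_eq_zero] at hs
    rw [hs] at hi
    exact absurd hi (Finset.notMem_empty i)
  | succ k ih =>
    intro s hs r hr P hP i hi
    have h1 : ((P.eval (-1) : ℤ) : ℂ) = ∏ i ∈ s, (r i - 1) := by
      have h2 : (P.map (Int.castRingHom ℂ)).eval (-1) = ((P.eval (-1) : ℤ) : ℂ) := by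
        rw [show (-1 : ℂ) = (Int.castRingHom ℂ) (-1) by simp, Polynomial.eval_map_apply]
        simp
      rw [← h2, hP, Polynomial.eval_prod]
      refine Finset.prod_congr rfl fun j _ => ?_
      rw [Polynomial.eval_add, Polynomial.eval_X, Polynomial.eval_C]
      ring
    have h3 : ‖((P.eval (-1) : ℤ) : ℂ)‖ < 1 := by
      rw [h1, norm_prod, ← Finset.mul_prod_erase s _ hi]
      calc ‖r i - 1‖ * ∏ j ∈ s.erase i, ‖r j - 1‖ ≤ ‖r i - 1‖ * 1 := by
            apply mul_le_mul_of_nonneg_left _ (norm_nonneg _)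
            exact Finset.prod_le_one (fun _ _ => norm_nonneg _)
              fun j hj => (hr j (Finset.mem_of_mem_erase hj)).le
        _ < 1 := by rw [mul_one]; exact hr i hi
    have h4 : P.eval (-1) = 0 := by
      rw [Complex.norm_intCast] at h3
      have h5 : |P.eval (-1)| < 1 := by exact_mod_cast h3
      exact Int.abs_lt_one_iff.1 h5
    rw [h4, Int.cast_zero] at h1
    obtain ⟨j, hj, hj0⟩ := Finset.prod_eq_zero_iff.1 h1.symm
    have hj1 : r j = 1 := by linear_combination hj0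
    by_cases hij : i = j
    · rw [hij]; exact hj1
    obtain ⟨Q, hQ⟩ := Polynomial.dvd_iff_isRoot.2 (show P.IsRoot (-1) from h4)
    apply ih (s.erase j) (by rw [Finset.card_erase_of_mem hj, hs]; rfl) r
      (fun i hi => hr i (Finset.mem_of_mem_erase hi)) Q ?_ i (Finset.mem_erase.2 ⟨hij, hi⟩)
    have hX : (Polynomial.X + Polynomial.C (1 : ℂ)) ≠ 0 := Polynomial.X_add_C_ne_zero 1
    apply mul_left_cancel₀ hX
    rw [← hj1, Finset.mul_prod_erase s (fun i => Polynomial.X + Polynomial.C (r i)) hj, ← hP, hQ,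
      Polynomial.map_mul, hj1]
    congr 1
    simp

/-- two complex numbers of the same cell -/
theorem THF_near (a b : ℂ) (ha : a ≠ 0) (hb : b ≠ 0)
    (h1 : |8 * Real.log ‖a‖ - 8 * Real.log ‖b‖| < 1)
    (h2 : |4 * (a / ‖a‖).re - 4 * (b / ‖b‖).re| < 1)
    (h3 : |4 * (a / ‖a‖).im - 4 * (b / ‖b‖).im| < 1) : ‖b / a - 1‖ < 1 := by
  have hA : 0 < ‖a‖ := norm_pos_iff.2 ha
  have hB : 0 < ‖b‖ := norm_pos_iff.2 hb
  have hA' : ((‖a‖ : ℝ) : ℂ) ≠ 0 := by exact_mod_cast hA.ne'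
  have hB' : ((‖b‖ : ℝ) : ℂ) ≠ 0 := by exact_mod_cast hB.ne'
  set x : ℝ := Real.log ‖b‖ - Real.log ‖a‖ with hx
  have hxabs : |x| ≤ 1 / 8 := by
    have : 8 * Real.log ‖a‖ - 8 * Real.log ‖b‖ = -(8 * x) := by rw [hx]; ring
    rw [this, abs_neg, abs_mul, abs_of_pos (by norm_num : (0 : ℝ) < 8)] at h1
    linarith
  have hexp : Real.exp x = ‖b‖ / ‖a‖ := by
    rw [hx, Real.exp_sub, Real.exp_log hB, Real.exp_log hA]
  have h4 : |‖b‖ / ‖a‖ - 1| ≤ 1 / 4 := by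
    rw [← hexp]
    have := Real.abs_exp_sub_one_le (x := x) (by linarith)
    linarith
  have h5 : ‖b / ‖b‖ - a / ‖a‖‖ < 1 / 2 := by
    have h6 := Complex.norm_le_abs_re_add_abs_im (b / ‖b‖ - a / ‖a‖)
    rw [Complex.sub_re, Complex.sub_im] at h6
    have h7 : |(b / (‖b‖ : ℂ)).re - (a / (‖a‖ : ℂ)).re| < 1 / 4 := by
      have : 4 * (a / (‖a‖ : ℂ)).re - 4 * (b / (‖b‖ : ℂ)).re =
        -(4 * ((b / (‖b‖ : ℂ)).re - (a / (‖a‖ : ℂ)).re)) := by ring
      rw [this, abs_neg, abs_mul, abs_of_pos (by norm_num : (0 : ℝ) < 4)] at h2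
      linarith
    have h8 : |(b / (‖b‖ : ℂ)).im - (a / (‖a‖ : ℂ)).im| < 1 / 4 := by
      have : 4 * (a / (‖a‖ : ℂ)).im - 4 * (b / (‖b‖ : ℂ)).im =
        -(4 * ((b / (‖b‖ : ℂ)).im - (a / (‖a‖ : ℂ)).im)) := by ring
      rw [this, abs_neg, abs_mul, abs_of_pos (by norm_num : (0 : ℝ) < 4)] at h3
      linarith
    linarith
  have h9 : b / a - 1 = ((‖b‖ / ‖a‖ : ℝ) : ℂ) * ((b / ‖b‖ - a / ‖a‖) * (‖a‖ / a)) +
      ((‖b‖ / ‖a‖ - 1 : ℝ) : ℂ) := by
    push_cast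
    field_simp
    ring
  have h10 : ‖(‖a‖ : ℂ) / a‖ = 1 := by
    rw [norm_div, Complex.norm_real, norm_norm, div_self hA.ne']
  have h11 : ‖b / a - 1‖ ≤ (‖b‖ / ‖a‖) * ‖b / ‖b‖ - a / ‖a‖‖ + |‖b‖ / ‖a‖ - 1| := by
    rw [h9]
    refine (norm_add_le _ _).trans ?_
    rw [norm_mul, norm_mul, h10, mul_one, Complex.norm_real, Complex.norm_real, Real.norm_eq_abs,
      Real.norm_eq_abs, abs_of_pos (div_pos hB hA)]
  have h12 := (abs_le.1 h4).2
  have h13 : ‖b‖ / ‖a‖ * ‖b / ‖b‖ - a / ‖a‖‖ ≤ 5 / 4 * (1 / 2) :=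
    mul_le_mul (by linarith) h5.le (norm_nonneg _) (by norm_num)
  linarith

end Pool.Agent.helper3.HB
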